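import Mathlib

/-!
Definitions for tolerance graphs with a tolerance function and Archimedean graphs.
-/

set_option autoImplicit false

namespace Pool.Agent.Lib.MP_3f93e8_co

open Filter MeasureTheory

/-- `G` is a `φ`-tolerance graph: closed intervals `[a v, b v]` and positive tolerances `t v`
with `u ~ v` iff the length of the intersection is at least `φ (t u) (t v)`. -/
def IsToleranceGraph {V : Type} (φ : ℝ → ℝ → ℝ) (G : SimpleGraph V) : Prop :=
  ∃ a b t : V → ℝ, (∀ v, a v ≤ b v) ∧ (∀ v, 0 < t v) ∧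
    ∀ u v, u ≠ v → (G.Adj u v ↔
      φ (t u) (t v) ≤ (volume (Set.Icc (a u) (b u) ∩ Set.Icc (a v) (b v))).toReal)

/-- `φ`, read on positive arguments, is symmetric, positive and Archimedean. -/
def IsArchimedeanFn (φ : ℝ → ℝ → ℝ) : Prop :=
  (∀ x y, 0 < x → 0 < y → φ x y = φ y x) ∧ (∀ x y, 0 < x → 0 < y → 0 < φ x y) ∧
    ∀ c, 0 < c → Tendsto (fun x => φ x c) atTop atTop ∧ Tendsto (fun x => φ c x) atTop atTop

/-- `G` is a `φ`-tolerance graph for every symmetric positive Archimedean `φ`. -/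
def IsArchimedeanGraph {V : Type} (G : SimpleGraph V) : Prop :=
  ∀ φ : ℝ → ℝ → ℝ, IsArchimedeanFn φ → IsToleranceGraph φ G

end Pool.Agent.Lib.MP_3f93e8_co
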