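import Mathlib
import Pool.Agent.Lib.MP_3f93e8_co.Defs

set_option autoImplicit false

namespace Pool.Agent.Lib.MP_3f93e8_co

open Filter MeasureTheory

theorem len_eq (a b c d : ℝ) :
    (volume (Set.Icc a b ∩ Set.Icc c d)).toReal = max (min b d - max a c) 0 := by
  rw [Set.Icc_inter_Icc, Real.volume_Icc, ENNReal.toReal_ofReal']

theorem le_len_iff {p : ℝ} (hp : 0 < p) (a b c d : ℝ) :
    p ≤ (volume (Set.Icc a b ∩ Set.Icc c d)).toReal ↔
      p ≤ b - a ∧ p ≤ b - c ∧ p ≤ d - a ∧ p ≤ d - c := by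
  rw [len_eq, le_max_iff]
  constructor
  · rintro (h | h)
    · have h1 := min_le_left b d
      have h2 := min_le_right b d
      have h3 := le_max_left a c
      have h4 := le_max_right a c
      refine ⟨by linarith, by linarith, by linarith, by linarith⟩
    · linarith
  · rintro ⟨h1, h2, h3, h4⟩
    left
    rcases min_choice b d with h | h <;> rcases max_choice a c with h' | h' <;> rw [h, h'] <;>
      assumption

theorem isArchimedeanFn_add : IsArchimedeanFn (fun x y => x + y) := by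
  refine ⟨fun x y _ _ => add_comm x y, fun x y hx hy => add_pos hx hy, fun c _ => ⟨?_, ?_⟩⟩
  · exact tendsto_atTop_add_const_right _ c tendsto_id
  · exact tendsto_atTop_add_const_left _ c tendsto_id

theorem isArchimedeanFn_max : IsArchimedeanFn (fun x y => max x y) := by
  refine ⟨fun x y _ _ => max_comm x y, fun x y hx _ => lt_max_of_lt_left hx, fun c _ => ⟨?_, ?_⟩⟩
  · exact tendsto_atTop_mono (fun x => le_max_left x c) tendsto_id
  · exact tendsto_atTop_mono (fun x => le_max_right c x) tendsto_id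

/-- The octahedron is not a sum-tolerance graph. -/
theorem octahedron_not_sum :
    ¬ IsToleranceGraph (fun x y => x + y) (SimpleGraph.completeEquipartiteGraph 3 2) := by
  rintro ⟨a, b, t, -, ht, h⟩
  have E : ∀ u v : Fin 3 × Fin 2, u.1 ≠ v.1 →
      t u + t v ≤ b u - a u ∧ t u + t v ≤ b u - a v := by
    intro u v huv
    have h1 := (h u v (fun e => huv (by rw [e]))).1 huv
    rw [le_len_iff (add_pos (ht u) (ht v))] at h1
    exact ⟨h1.1, h1.2.1⟩
  have N : ∀ i : Fin 3,
      (∃ j k : Fin 2, j ≠ k ∧ b (i, j) - a (i, j) < t (i, j) + t (i, k)) ∨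
      (∃ j k : Fin 2, j ≠ k ∧ b (i, j) - a (i, k) < t (i, j) + t (i, k)) := by
    intro i
    have h1 := (h (i, 0) (i, 1) (by simp)).2
    rw [le_len_iff (add_pos (ht _) (ht _))] at h1
    by_contra hc
    push Not at hc
    have := h1 ⟨hc.1 0 1 (by simp), hc.2 0 1 (by simp), by have := hc.2 1 0 (by simp); linarith,
      by have := hc.1 1 0 (by simp); linarith⟩
    exact this rfl
  have A : ∀ i i' : Fin 3, i ≠ i' →
      (∃ j k : Fin 2, j ≠ k ∧ b (i, j) - a (i, j) < t (i, j) + t (i, k)) →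
      (∃ j k : Fin 2, j ≠ k ∧ b (i', j) - a (i', j) < t (i', j) + t (i', k)) → False := by
    rintro i i' hi ⟨j, k, -, h1⟩ ⟨j', k', -, h2⟩
    have h3 := (E (i, j) (i', k') hi).1
    have h4 := (E (i', j') (i, k) hi.symm).1
    linarith
  have B : ∀ i i' : Fin 3, i ≠ i' →
      (∃ j k : Fin 2, j ≠ k ∧ b (i, j) - a (i, k) < t (i, j) + t (i, k)) →
      (∃ j k : Fin 2, j ≠ k ∧ b (i', j) - a (i', k) < t (i', j) + t (i', k)) → False := by
    rintro i i' hi ⟨j, k, -, h1⟩ ⟨j', k', -, h2⟩
    have h3 := (E (i, j) (i', k') hi).2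
    have h4 := (E (i', j') (i, k) hi.symm).2
    linarith
  rcases N 0 with h0 | h0 <;> rcases N 1 with h1 | h1 <;> rcases N 2 with h2 | h2
  · exact A 0 1 (by decide) h0 h1
  · exact A 0 1 (by decide) h0 h1
  · exact A 0 2 (by decide) h0 h2
  · exact B 1 2 (by decide) h1 h2
  · exact A 1 2 (by decide) h1 h2
  · exact B 0 2 (by decide) h0 h2
  · exact B 0 1 (by decide) h0 h1
  · exact B 0 1 (by decide) h0 h1

end Pool.Agent.Lib.MP_3f93e8_co
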