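import Mathlib
import Pool.Agent.Lib.MP_3f93e8_co.Basic

/-!
Representations by points with heights work for every Archimedean function.
-/

set_option autoImplicit false

namespace Pool.Agent.Lib.MP_3f93e8_co

open Filter MeasureTheory Finset

/-- well separated tolerances -/
theorem scalesC {φ : ℝ → ℝ → ℝ} (hφ : IsArchimedeanFn φ) (C : ℝ) (hC : 1 ≤ C) (n : ℕ) :
    ∃ T L : ℕ → ℝ, (∀ i, 0 < T i) ∧ (∀ i, 0 < L i) ∧
      (∀ i j h, i < j → j ≤ h → h < n → φ (T i) (T j) ≤ L h) ∧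
      ∀ i j h, i < j → h < j → j < n → C * L h < φ (T i) (T j) := by
  induction n with
  | zero => exact ⟨fun _ => 1, fun _ => 1, fun _ => one_pos, fun _ => one_pos,
      fun _ _ _ _ _ h => absurd h (Nat.not_lt_zero _),
      fun _ _ _ _ _ h => absurd h (Nat.not_lt_zero _)⟩
  | succ n ih =>
    obtain ⟨T, L, h1, h2, h3, h4⟩ := ih
    have e1 : ∀ᶠ x in atTop, ∀ i ∈ range n, ∀ h ∈ range n, C * L h < φ (T i) x :=
      (eventually_all_finset _).2 fun i _ => (eventually_all_finset _).2 fun h _ =>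
        (hφ.2.2 (T i) (h1 i)).2.eventually_gt_atTop _
    obtain ⟨x, hx0, hx⟩ := ((eventually_gt_atTop 0).and e1).exists
    have hp : ∀ i ∈ range n, 0 ≤ φ (T i) x := fun i _ => (hφ.2.1 _ _ (h1 i) hx0).le
    have hs : 0 ≤ ∑ i ∈ range n, φ (T i) x := sum_nonneg hp
    refine ⟨fun i => if i = n then x else T i,
      fun i => if i = n then 1 + ∑ i ∈ range n, φ (T i) x else L i, ?_, ?_, ?_, ?_⟩
    · intro i
      by_cases hi : i = n
      · simp only [hi, if_true]
        exact hx0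
      · simp only [hi, if_false]
        exact h1 i
    · intro i
      by_cases hi : i = n
      · simp only [hi, if_true]
        linarith
      · simp only [hi, if_false]
        exact h2 i
    · intro i j h hij hjh hh
      have hi : i ≠ n := by omega
      have hle := single_le_sum hp (mem_range.2 (by omega : i < n))
      by_cases hh' : h = n
      · by_cases hj : j = n
        · simp only [hi, hj, hh', if_true, if_false]
          linarith
        · simp only [hi, hj, hh', if_true, if_false]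
          have a1 := h3 i j j hij le_rfl (by omega)
          have a2 := hx i (mem_range.2 (by omega)) j (mem_range.2 (by omega))
          have a3 := le_mul_of_one_le_left (h2 j).le hC
          linarith
      · have hj : j ≠ n := by omega
        simp only [hi, hj, hh', if_false]
        exact h3 i j h hij hjh (by omega)
    · intro i j h hij hhj hj
      have hi : i ≠ n := by omega
      have hh : h ≠ n := by omega
      by_cases hj' : j = n
      · simp only [hi, hj', hh, if_true, if_false]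
        exact hx i (mem_range.2 (by omega)) h (mem_range.2 (by omega))
      · simp only [hi, hj', hh, if_false]
        exact h4 i j h hij hhj (by omega)

/-- representation by `N` points with heights below `n` -/
theorem arch_of_points {V : Type} (G : SimpleGraph V) (N n : ℕ) (l r ρ : V → ℕ) (w : ℕ → ℕ)
    (h0 : ∀ v, l v ≤ r v ∧ r v ≤ N ∧ ρ v < n) (hw : ∀ k, k < N → w k < n)
    (hρ : Function.Injective ρ)
    (h : ∀ u v, u ≠ v → (G.Adj u v ↔ ∃ k, (l u ≤ k ∧ k < r u ∧ ρ u ≤ w k) ∧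
      (l v ≤ k ∧ k < r v ∧ ρ v ≤ w k))) : IsArchimedeanGraph G := by
  intro φ hφ
  have hN : (0 : ℝ) ≤ N := Nat.cast_nonneg N
  obtain ⟨T, L, h1, h2, h3, h4⟩ := scalesC hφ ((N : ℝ) + 1) (by linarith) n
  have hX : ∀ i j, i ≤ j → ∑ k ∈ range j, L (w k) - ∑ k ∈ range i, L (w k) =
      ∑ k ∈ Ico i j, L (w k) := fun i j hij => (sum_Ico_eq_sub _ hij).symm
  have hmono : ∀ i j, i ≤ j → ∑ k ∈ range i, L (w k) ≤ ∑ k ∈ range j, L (w k) := fun i j hij =>
    sum_le_sum_of_subset_of_nonneg (range_subset_range.2 hij) fun k _ _ => (h2 _).le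
  have hbig : ∀ i j k, i ≤ k → k < j →
      L (w k) ≤ ∑ k ∈ range j, L (w k) - ∑ k ∈ range i, L (w k) := by
    intro i j k hik hkj
    rw [hX i j (by omega)]
    exact single_le_sum (f := fun k => L (w k)) (fun k _ => (h2 _).le) (mem_Ico.2 ⟨hik, hkj⟩)
  have hsm : ∀ i j (p : ℝ), 0 < p → j ≤ N → (∀ k, i ≤ k → k < j → ((N : ℝ) + 1) * L (w k) < p) →
      ∑ k ∈ range j, L (w k) - ∑ k ∈ range i, L (w k) < p := by
    intro i j p hp hj hk
    rcases le_total i j with hij | hij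
    · rw [hX i j hij]
      have a0 : (0 : ℝ) < (N : ℝ) + 1 := by linarith
      have a1 := sum_le_card_nsmul (Ico i j) (fun k => L (w k)) (p / ((N : ℝ) + 1)) fun k hk' => by
        have := hk k (mem_Ico.1 hk').1 (mem_Ico.1 hk').2
        rw [le_div_iff₀ a0]
        linarith
      rw [nsmul_eq_mul, Nat.card_Ico] at a1
      have a2 : ((j - i : ℕ) : ℝ) ≤ N := by exact_mod_cast (by omega : j - i ≤ N)
      have a3 : 0 < p / ((N : ℝ) + 1) := div_pos hp a0
      have a4 : p / ((N : ℝ) + 1) * ((N : ℝ) + 1) = p := div_mul_cancel₀ _ a0.ne'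
      nlinarith
    · linarith [hmono j i hij]
  refine ⟨fun v => ∑ k ∈ range (l v), L (w k), fun v => ∑ k ∈ range (r v), L (w k),
    fun v => T (ρ v), fun v => hmono _ _ (h0 v).1, fun v => h1 _, fun u v huv => ?_⟩
  have hne : ρ u ≠ ρ v := hρ.ne huv
  rw [le_len_iff (hφ.2.1 _ _ (h1 _) (h1 _)), h u v huv]
  have hup : ∀ s, s < n → ρ u ≤ s → ρ v ≤ s → φ (T (ρ u)) (T (ρ v)) ≤ L s := by
    intro s hs a1 a2
    rcases lt_or_gt_of_ne hne with h5 | h5
    · exact h3 _ _ _ h5 a2 hs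
    · rw [hφ.1 _ _ (h1 _) (h1 _)]
      exact h3 _ _ _ h5 a1 hs
  have hlo : ∀ s, ¬ (ρ u ≤ s ∧ ρ v ≤ s) → ((N : ℝ) + 1) * L s < φ (T (ρ u)) (T (ρ v)) := by
    intro s hs
    rcases lt_or_gt_of_ne hne with h5 | h5
    · exact h4 _ _ _ h5 (by omega) (h0 v).2.2
    · rw [hφ.1 _ _ (h1 _) (h1 _)]
      exact h4 _ _ _ h5 (by omega) (h0 u).2.2
  have b1 := (h0 u).2.1
  have b2 := (h0 v).2.1
  constructor
  · rintro ⟨k, ⟨a1, a2, a5⟩, a3, a4, a6⟩
    have a7 := hup (w k) (hw k (by omega)) a5 a6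
    exact ⟨a7.trans (hbig _ _ k a1 a2), a7.trans (hbig _ _ k a3 a2), a7.trans (hbig _ _ k a1 a4),
      a7.trans (hbig _ _ k a3 a4)⟩
  · rintro ⟨a1, a2, a3, a4⟩
    by_contra hc
    have key := hsm (max (l u) (l v)) (min (r u) (r v)) _ (hφ.2.1 _ _ (h1 (ρ u)) (h1 (ρ v)))
      (by omega) fun k c1 c2 => hlo (w k) fun c3 =>
        hc ⟨k, ⟨by omega, by omega, c3.1⟩, by omega, by omega, c3.2⟩
    rcases max_choice (l u) (l v) with c1 | c1 <;> rcases min_choice (r u) (r v) with c2 | c2 <;>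
      rw [c1, c2] at key <;> linarith

/-- the same with the interval of a vertex given as the hull of the points it owns -/
theorem arch_of_hull {V : Type} (G : SimpleGraph V) (N n : ℕ) (P : V → ℕ → Prop) (ρ : V → ℕ)
    (w : ℕ → ℕ) (hP : ∀ v k, P v k → k < N) (h0 : ∀ v, ρ v < n) (hw : ∀ k, k < N → w k < n)
    (hρ : Function.Injective ρ)
    (h : ∀ u v, u ≠ v → (G.Adj u v ↔ ∃ k,
      ((∃ i j, P u i ∧ P u j ∧ i ≤ k ∧ k ≤ j) ∧ ρ u ≤ w k) ∧
      ((∃ i j, P v i ∧ P v j ∧ i ≤ k ∧ k ≤ j) ∧ ρ v ≤ w k))) : IsArchimedeanGraph G := by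
  have hex : ∀ v, ∃ l r : ℕ, l ≤ r ∧ r ≤ N ∧
      ∀ k, (l ≤ k ∧ k < r) ↔ ∃ i j, P v i ∧ P v j ∧ i ≤ k ∧ k ≤ j := by
    intro v
    classical
    by_cases hv : ∃ i, P v i
    · have hs : ((range N).filter (P v)).Nonempty := by
        obtain ⟨i, hi⟩ := hv
        exact ⟨i, mem_filter.2 ⟨mem_range.2 (hP v i hi), hi⟩⟩
      have m1 := mem_filter.1 (min'_mem _ hs)
      have m2 := mem_filter.1 (max'_mem _ hs)
      have m3 := min'_le_max' _ hs
      have m4 := mem_range.1 m2.1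
      refine ⟨min' _ hs, max' _ hs + 1, by omega, by omega, fun k => ⟨fun hk => ?_, ?_⟩⟩
      · exact ⟨_, _, m1.2, m2.2, hk.1, by omega⟩
      · rintro ⟨i, j, hi, hj, a1, a2⟩
        have c1 := min'_le _ i (mem_filter.2 ⟨mem_range.2 (hP v i hi), hi⟩)
        have c2 := le_max' _ j (mem_filter.2 ⟨mem_range.2 (hP v j hj), hj⟩)
        exact ⟨c1.trans a1, Nat.lt_succ_of_le (a2.trans c2)⟩
    · exact ⟨0, 0, le_rfl, Nat.zero_le _, fun k => ⟨fun hk => by omega,
        fun ⟨i, _, hi, _⟩ => absurd ⟨i, hi⟩ hv⟩⟩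
  choose l r h1 h2 h3 using hex
  refine arch_of_points G N n l r ρ w (fun v => ⟨h1 v, h2 v, h0 v⟩) hw hρ fun u v huv => ?_
  rw [h u v huv]
  refine exists_congr fun k => ?_
  rw [← h3 u k, ← h3 v k]
  tauto

theorem code_le {n a b c d : ℕ} (hb : b < n) (hd : d < n)
    (h : a * n + (n - 1 - b) ≤ c * n + (n - 1 - d)) : a < c ∨ (a = c ∧ d ≤ b) := by
  rcases lt_trichotomy a c with h1 | h1 | h1
  · exact Or.inl h1
  · subst h1
    exact Or.inr ⟨rfl, by omega⟩
  · have : (c + 1) * n ≤ a * n := Nat.mul_le_mul_right n h1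
    rw [Nat.add_mul, Nat.one_mul] at this
    omega

/-- vertex orders in which a crossing `ac`, `bd` forces the edges `bc` and `cd` -/
theorem arch_of_order {V : Type} [Fintype V] (G : SimpleGraph V) (f : V → ℕ)
    (hf : Function.Injective f)
    (h : ∀ a b c d, f a < f b → f b < f c → f c < f d → G.Adj a c → G.Adj b d →
      G.Adj b c ∧ G.Adj c d) : IsArchimedeanGraph G := by
  classical
  obtain ⟨n, hn⟩ : ∃ n, ∀ v, f v < n :=
    ⟨univ.sup f + 1, fun v => Nat.lt_succ_of_le (le_sup (f := f) (mem_univ v))⟩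
  let cd : V → V → ℕ := fun a b => f a * n + (n - 1 - f b)
  let E : ℕ → Prop := fun k => ∃ c d, G.Adj c d ∧ f c < f d ∧ k = cd c d
  let P : V → ℕ → Prop := fun v k =>
    ∃ u, G.Adj v u ∧ ((f v < f u ∧ k = cd v u) ∨ (f u < f v ∧ k = cd u v))
  have hcd : ∀ a b, cd a b < n * n := by
    intro a b
    have h1 : (f a + 1) * n ≤ n * n := Nat.mul_le_mul_right n (hn a)
    rw [Nat.add_mul, Nat.one_mul] at h1
    have h2 := hn b
    show f a * n + (n - 1 - f b) < n * n
    omega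
  have hmod : ∀ a b, n - cd a b % n = f b + 1 := by
    intro a b
    have h2 := hn b
    have h1 : cd a b % n = n - 1 - f b := by
      show (f a * n + (n - 1 - f b)) % n = _
      rw [Nat.mul_add_mod_self_right, Nat.mod_eq_of_lt (by omega)]
    omega
  have hle : ∀ a b c d, cd a b ≤ cd c d → f a < f c ∨ (f a = f c ∧ f d ≤ f b) :=
    fun a b c d hk => code_le (hn b) (hn d) hk
  have key : ∀ c d v, G.Adj c d → f c < f d →
      (∃ i j, P v i ∧ P v j ∧ i ≤ cd c d ∧ cd c d ≤ j) → f v ≤ f d →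
      v = c ∨ v = d ∨ (f c < f v ∧ f v < f d ∧ ∃ u, f u < f c ∧ G.Adj u v) := by
    rintro c d v _ _ ⟨i, j, ⟨u, a1, a2⟩, ⟨u', _, b2⟩, c1, c2⟩ hv
    by_cases e1 : v = c
    · exact Or.inl e1
    by_cases e2 : v = d
    · exact Or.inr (Or.inl e2)
    have n1 := hf.ne e1
    have n2 := hf.ne e2
    have m1 : f c ≤ f v := by
      rcases b2 with ⟨b3, rfl⟩ | ⟨b3, rfl⟩
      · have := hle _ _ _ _ c2
        omega
      · have := hle _ _ _ _ c2
        omega
    refine Or.inr (Or.inr ⟨by omega, by omega, u, ?_, a1.symm⟩)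
    rcases a2 with ⟨a3, rfl⟩ | ⟨a3, rfl⟩
    · have := hle _ _ _ _ c1
      omega
    · have := hle _ _ _ _ c1
      omega
  have fwd : ∀ u v, G.Adj u v → f u < f v → ∃ k,
      ((∃ i j, P u i ∧ P u j ∧ i ≤ k ∧ k ≤ j) ∧ f u + 1 ≤ (if E k then n - k % n else 0)) ∧
      ((∃ i j, P v i ∧ P v j ∧ i ≤ k ∧ k ≤ j) ∧ f v + 1 ≤ (if E k then n - k % n else 0)) := by
    intro u v huv hlt
    have e : E (cd u v) := ⟨u, v, huv, hlt, rfl⟩
    have p1 : P u (cd u v) := ⟨v, huv, Or.inl ⟨hlt, rfl⟩⟩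
    have p2 : P v (cd u v) := ⟨u, huv.symm, Or.inr ⟨hlt, rfl⟩⟩
    refine ⟨cd u v, ⟨⟨_, _, p1, p1, le_rfl, le_rfl⟩, ?_⟩, ⟨_, _, p2, p2, le_rfl, le_rfl⟩, ?_⟩
    · rw [if_pos e, hmod]; omega
    · rw [if_pos e, hmod]
  refine arch_of_hull G (n * n) (n + 1) P (fun v => f v + 1)
    (fun k => if E k then n - k % n else 0) ?_ (fun v => Nat.succ_lt_succ (hn v)) ?_
    (fun u v huv => hf (Nat.succ_injective huv)) fun u v huv => ⟨fun hadj => ?_, ?_⟩
  · rintro v k ⟨u, _, ⟨_, rfl⟩ | ⟨_, rfl⟩⟩ <;> exact hcd _ _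
  · intro k _
    split_ifs <;> omega
  · rcases lt_or_gt_of_ne (hf.ne huv) with h1 | h1
    · exact fwd u v hadj h1
    · obtain ⟨k, a1, a2⟩ := fwd v u hadj.symm h1
      exact ⟨k, a2, a1⟩
  · rintro ⟨k, ⟨a1, a2⟩, b1, b2⟩
    have e : E k := by
      by_contra e
      rw [if_neg e] at a2
      omega
    rw [if_pos e] at a2 b2
    obtain ⟨c, d, hcd', hlt, rfl⟩ := e
    rw [hmod] at a2 b2
    have k1 := key c d u hcd' hlt a1 (by omega)
    have k2 := key c d v hcd' hlt b1 (by omega)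
    rcases k1 with rfl | rfl | ⟨x1, x2, x, x3, x4⟩
    · rcases k2 with rfl | rfl | ⟨y1, y2, y, y3, y4⟩
      · exact absurd rfl huv
      · exact hcd'
      · exact (h y u v d y3 y1 y2 y4 hcd').1
    · rcases k2 with rfl | rfl | ⟨y1, y2, y, y3, y4⟩
      · exact hcd'.symm
      · exact absurd rfl huv
      · exact (h y c v u y3 y1 y2 y4 hcd').2.symm
    · rcases k2 with rfl | rfl | ⟨y1, y2, y, y3, y4⟩
      · exact (h x v u d x3 x1 x2 x4 hcd').1.symm
      · exact (h x c u v x3 x1 x2 x4 hcd').2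
      · rcases lt_or_gt_of_ne (hf.ne huv) with h1 | h1
        · exact (h x c u v x3 x1 h1 x4 (h y c v d y3 y1 y2 y4 hcd').1).2
        · exact (h y c v u y3 y1 h1 y4 (h x c u d x3 x1 x2 x4 hcd').1).2.symm

end Pool.Agent.Lib.MP_3f93e8_co
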