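import Mathlib
import Pool.Agent.Lib.MP_3f93e8_co.Basic

set_option autoImplicit false

namespace Pool.Agent.Lib.MP_3f93e8_co

open Filter MeasureTheory Finset

/-- the overlap of two intervals is at least `p` -/
def Ov (p a b c d : ℝ) : Prop := p ≤ b - a ∧ p ≤ b - c ∧ p ≤ d - a ∧ p ≤ d - c

theorem tol_iso {V W : Type} {φ : ℝ → ℝ → ℝ} {G : SimpleGraph V} {H : SimpleGraph W}
    (e : G ↪g H) (h : IsToleranceGraph φ H) : IsToleranceGraph φ G := by
  obtain ⟨a, b, t, h1, h2, h3⟩ := h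
  exact ⟨a ∘ e, b ∘ e, t ∘ e, fun v => h1 _, fun v => h2 _, fun u v huv =>
    e.map_adj_iff.symm.trans (h3 _ _ (e.injective.ne huv))⟩

theorem arch_iso {V W : Type} {G : SimpleGraph V} {H : SimpleGraph W}
    (e : G ↪g H) (h : IsArchimedeanGraph H) : IsArchimedeanGraph G :=
  fun φ hφ => tol_iso e (h φ hφ)

theorem tol_of_lt {φ : ℝ → ℝ → ℝ} (hφ : IsArchimedeanFn φ) (G : SimpleGraph (Fin 6))
    (a b t : Fin 6 → ℝ) (hab : ∀ v, a v ≤ b v) (ht : ∀ v, 0 < t v)
    (h : ∀ u v, u < v → (G.Adj u v ↔ Ov (φ (t u) (t v)) (a u) (b u) (a v) (b v))) :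
    IsToleranceGraph φ G := by
  refine ⟨a, b, t, hab, ht, fun u v huv => ?_⟩
  rw [le_len_iff (hφ.2.1 _ _ (ht u) (ht v))]
  rcases lt_or_gt_of_ne huv with h1 | h1
  · exact h u v h1
  · rw [G.adj_comm, h v u h1, hφ.1 _ _ (ht u) (ht v), Ov]
    tauto

/-- well separated tolerances -/
theorem scales {φ : ℝ → ℝ → ℝ} (hφ : IsArchimedeanFn φ) (n : ℕ) :
    ∃ T L : ℕ → ℝ, (∀ i, 0 < T i) ∧ (∀ i, 0 < L i) ∧
      (∀ i j h, i < j → j ≤ h → h < n → φ (T i) (T j) ≤ L h) ∧
      ∀ i j h, i < j → h < j → j < n → 10 * L h < φ (T i) (T j) := by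
  induction n with
  | zero => exact ⟨fun _ => 1, fun _ => 1, fun _ => one_pos, fun _ => one_pos,
      fun _ _ _ _ _ h => absurd h (Nat.not_lt_zero _),
      fun _ _ _ _ _ h => absurd h (Nat.not_lt_zero _)⟩
  | succ n ih =>
    obtain ⟨T, L, h1, h2, h3, h4⟩ := ih
    have e1 : ∀ᶠ x in atTop, ∀ i ∈ range n, ∀ h ∈ range n, 10 * L h < φ (T i) x :=
      (eventually_all_finset _).2 fun i _ => (eventually_all_finset _).2 fun h _ =>
        (hφ.2.2 (T i) (h1 i)).2.eventually_gt_atTop _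
    obtain ⟨x, hx0, hx⟩ := ((eventually_gt_atTop 0).and e1).exists
    have hp : ∀ i ∈ range n, 0 ≤ φ (T i) x := fun i _ => (hφ.2.1 _ _ (h1 i) hx0).le
    have hs : 0 ≤ ∑ i ∈ range n, φ (T i) x := sum_nonneg hp
    refine ⟨fun i => if i = n then x else T i,
      fun i => if i = n then 1 + ∑ i ∈ range n, φ (T i) x else L i, ?_, ?_, ?_, ?_⟩
    · intro i
      by_cases hi : i = n
      · simp only [hi, if_true]
        exact hx0
      · simp only [hi, if_false]
        exact h1 i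
    · intro i
      by_cases hi : i = n
      · simp only [hi, if_true]
        linarith
      · simp only [hi, if_false]
        exact h2 i
    · intro i j h hij hjh hh
      have hi : i ≠ n := by omega
      have hle := single_le_sum hp (mem_range.2 (by omega : i < n))
      by_cases hh' : h = n
      · by_cases hj : j = n
        · simp only [hi, hj, hh', if_true, if_false]
          linarith
        · simp only [hi, hj, hh', if_true, if_false]
          have a1 := h3 i j j hij le_rfl (by omega)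
          have a2 := hx i (mem_range.2 (by omega)) j (mem_range.2 (by omega))
          have a3 := h2 j
          linarith
      · have hj : j ≠ n := by omega
        simp only [hi, hj, hh', if_false]
        exact h3 i j h hij hjh (by omega)
    · intro i j h hij hhj hj
      have hi : i ≠ n := by omega
      have hh : h ≠ n := by omega
      by_cases hj' : j = n
      · simp only [hi, hj', hh, if_true, if_false]
        exact hx i (mem_range.2 (by omega)) h (mem_range.2 (by omega))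
      · simp only [hi, hj', hh, if_false]
        exact h4 i j h hij hhj (by omega)

/-- representation by points with heights -/
theorem arch_of_rep (G : SimpleGraph (Fin 6)) (l r ρ : Fin 6 → ℕ) (w : ℕ → ℕ)
    (h0 : ∀ v, l v ≤ r v ∧ r v ≤ 9 ∧ ρ v < 6) (hw : ∀ k, k < 9 → w k < 6)
    (h : ∀ u v, u < v → ρ u ≠ ρ v ∧ (G.Adj u v ↔ ∃ k, k < 9 ∧ l u ≤ k ∧ k < r u ∧ l v ≤ k ∧
      k < r v ∧ ρ u ≤ w k ∧ ρ v ≤ w k)) : IsArchimedeanGraph G := by
  intro φ hφ
  obtain ⟨T, L, h1, h2, h3, h4⟩ := scales hφ 6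
  have hX : ∀ i j, i ≤ j → ∑ k ∈ range j, L (w k) - ∑ k ∈ range i, L (w k) =
      ∑ k ∈ Ico i j, L (w k) := fun i j hij => (sum_Ico_eq_sub _ hij).symm
  have hmono : ∀ i j, i ≤ j → ∑ k ∈ range i, L (w k) ≤ ∑ k ∈ range j, L (w k) := fun i j hij =>
    sum_le_sum_of_subset_of_nonneg (range_subset_range.2 hij) fun k _ _ => (h2 _).le
  have hbig : ∀ i j k, i ≤ k → k < j →
      L (w k) ≤ ∑ k ∈ range j, L (w k) - ∑ k ∈ range i, L (w k) := by
    intro i j k hik hkj
    rw [hX i j (by omega)]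
    exact single_le_sum (f := fun k => L (w k)) (fun k _ => (h2 _).le) (mem_Ico.2 ⟨hik, hkj⟩)
  have hsm : ∀ i j (p : ℝ), 0 < p → j ≤ 9 → (∀ k, i ≤ k → k < j → 10 * L (w k) < p) →
      ∑ k ∈ range j, L (w k) - ∑ k ∈ range i, L (w k) < p := by
    intro i j p hp hj hk
    rcases le_total i j with hij | hij
    · rw [hX i j hij]
      have a1 := sum_le_card_nsmul (Ico i j) (fun k => L (w k)) (p / 10) fun k hk' => by
        have := hk k (mem_Ico.1 hk').1 (mem_Ico.1 hk').2
        linarith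
      rw [nsmul_eq_mul, Nat.card_Ico] at a1
      have a2 : ((j - i : ℕ) : ℝ) ≤ 9 := by exact_mod_cast (by omega : j - i ≤ 9)
      nlinarith
    · linarith [hmono j i hij]
  refine tol_of_lt hφ G (fun v => ∑ k ∈ range (l v), L (w k))
    (fun v => ∑ k ∈ range (r v), L (w k)) (fun v => T (ρ v)) (fun v => hmono _ _ (h0 v).1)
    (fun v => h1 _) fun u v huv => ?_
  obtain ⟨hne, hadj⟩ := h u v huv
  have hup : ∀ s, s < 6 → ρ u ≤ s → ρ v ≤ s → φ (T (ρ u)) (T (ρ v)) ≤ L s := by
    intro s hs a1 a2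
    rcases lt_or_gt_of_ne hne with h5 | h5
    · exact h3 _ _ _ h5 a2 hs
    · rw [hφ.1 _ _ (h1 _) (h1 _)]
      exact h3 _ _ _ h5 a1 hs
  have hlo : ∀ s, ¬ (ρ u ≤ s ∧ ρ v ≤ s) → 10 * L s < φ (T (ρ u)) (T (ρ v)) := by
    intro s hs
    rcases lt_or_gt_of_ne hne with h5 | h5
    · exact h4 _ _ _ h5 (by omega) (h0 v).2.2
    · rw [hφ.1 _ _ (h1 _) (h1 _)]
      exact h4 _ _ _ h5 (by omega) (h0 u).2.2
  rw [hadj]
  constructor
  · rintro ⟨k, a0, a1, a2, a3, a4, a5, a6⟩
    have a7 := hup (w k) (hw k a0) a5 a6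
    exact ⟨a7.trans (hbig _ _ k a1 a2), a7.trans (hbig _ _ k a3 a2), a7.trans (hbig _ _ k a1 a4),
      a7.trans (hbig _ _ k a3 a4)⟩
  · rintro ⟨a1, a2, a3, a4⟩
    by_contra hc
    have b1 := (h0 u).2.1
    have b2 := (h0 v).2.1
    have key := hsm (max (l u) (l v)) (min (r u) (r v)) _ (hφ.2.1 _ _ (h1 (ρ u)) (h1 (ρ v)))
      (by omega) fun k c1 c2 => hlo (w k) fun c3 =>
        hc ⟨k, by omega, by omega, by omega, by omega, by omega, c3.1, c3.2⟩
    rcases max_choice (l u) (l v) with c1 | c1 <;> rcases min_choice (r u) (r v) with c2 | c2 <;>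
      rw [c1, c2] at key <;> linarith

/-- position of a pair -/
def idx (u v : ℕ) : ℕ := max u v * (max u v - 1) / 2 + min u v

/-- the graph with a given code -/
def gr (x : ℕ) : SimpleGraph (Fin 6) where
  Adj u v := u ≠ v ∧ x.testBit (idx u v) = true
  symm := ⟨fun u v h => ⟨h.1.symm, by rw [idx, max_comm, min_comm]; exact h.2⟩⟩
  loopless := ⟨fun _ h => h.1 rfl⟩

instance (x : ℕ) : DecidableRel (gr x).Adj := fun u v =>
  inferInstanceAs (Decidable (u ≠ v ∧ x.testBit (idx u v) = true))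

theorem tol6 {φ : ℝ → ℝ → ℝ} (hφ : IsArchimedeanFn φ) (G : SimpleGraph (Fin 6)) (T : ℕ → ℝ)
    (hT : ∀ i, 0 < T i) (a0 a1 a2 a3 a4 a5 b0 b1 b2 b3 b4 b5 : ℝ)
    (hab : a0 ≤ b0 ∧ a1 ≤ b1 ∧ a2 ≤ b2 ∧ a3 ≤ b3 ∧ a4 ≤ b4 ∧ a5 ≤ b5)
    (h01 : G.Adj 0 1 ↔ Ov (φ (T 0) (T 1)) a0 b0 a1 b1)
    (h02 : G.Adj 0 2 ↔ Ov (φ (T 0) (T 2)) a0 b0 a2 b2)
    (h03 : G.Adj 0 3 ↔ Ov (φ (T 0) (T 3)) a0 b0 a3 b3)
    (h04 : G.Adj 0 4 ↔ Ov (φ (T 0) (T 4)) a0 b0 a4 b4)
    (h05 : G.Adj 0 5 ↔ Ov (φ (T 0) (T 5)) a0 b0 a5 b5)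
    (h12 : G.Adj 1 2 ↔ Ov (φ (T 1) (T 2)) a1 b1 a2 b2)
    (h13 : G.Adj 1 3 ↔ Ov (φ (T 1) (T 3)) a1 b1 a3 b3)
    (h14 : G.Adj 1 4 ↔ Ov (φ (T 1) (T 4)) a1 b1 a4 b4)
    (h15 : G.Adj 1 5 ↔ Ov (φ (T 1) (T 5)) a1 b1 a5 b5)
    (h23 : G.Adj 2 3 ↔ Ov (φ (T 2) (T 3)) a2 b2 a3 b3)
    (h24 : G.Adj 2 4 ↔ Ov (φ (T 2) (T 4)) a2 b2 a4 b4)
    (h25 : G.Adj 2 5 ↔ Ov (φ (T 2) (T 5)) a2 b2 a5 b5)
    (h34 : G.Adj 3 4 ↔ Ov (φ (T 3) (T 4)) a3 b3 a4 b4)
    (h35 : G.Adj 3 5 ↔ Ov (φ (T 3) (T 5)) a3 b3 a5 b5)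
    (h45 : G.Adj 4 5 ↔ Ov (φ (T 4) (T 5)) a4 b4 a5 b5)
    : IsToleranceGraph φ G := by
  obtain ⟨c0, c1, c2, c3, c4, c5⟩ := hab
  refine tol_of_lt hφ G ![a0, a1, a2, a3, a4, a5] ![b0, b1, b2, b3, b4, b5] (fun v => T v) ?_
    (fun v => hT _) ?_
  · intro v
    fin_cases v <;> assumption
  · intro u v huv
    fin_cases u <;> fin_cases v <;> first | assumption | exact absurd huv (by decide)

theorem tol_s1 {φ : ℝ → ℝ → ℝ} (hφ : IsArchimedeanFn φ) {T L : ℕ → ℝ} (h1 : ∀ i, 0 < T i)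
    (h2 : ∀ i, 0 < L i) (h3 : ∀ i j h, i < j → j ≤ h → h < 6 → φ (T i) (T j) ≤ L h)
    (h4 : ∀ i j h, i < j → h < j → j < 6 → 10 * L h < φ (T i) (T j))
    (hx : φ (T 3) (T 4) - φ (T 2) (T 4) - φ (T 1) (T 3) + φ (T 1) (T 2) ≤ φ (T 0) (T 2)) :
    IsToleranceGraph φ (gr 3814) := by
  have u01 := h3 0 1 1 (by norm_num) le_rfl (by norm_num)
  have d01 := h4 0 1 0 (by norm_num) (by norm_num) (by norm_num)
  have u02 := h3 0 2 2 (by norm_num) le_rfl (by norm_num)
  have d02 := h4 0 2 1 (by norm_num) (by norm_num) (by norm_num)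
  have u03 := h3 0 3 3 (by norm_num) le_rfl (by norm_num)
  have d03 := h4 0 3 2 (by norm_num) (by norm_num) (by norm_num)
  have u04 := h3 0 4 4 (by norm_num) le_rfl (by norm_num)
  have d04 := h4 0 4 3 (by norm_num) (by norm_num) (by norm_num)
  have u05 := h3 0 5 5 (by norm_num) le_rfl (by norm_num)
  have d05 := h4 0 5 4 (by norm_num) (by norm_num) (by norm_num)
  have u12 := h3 1 2 2 (by norm_num) le_rfl (by norm_num)
  have d12 := h4 1 2 1 (by norm_num) (by norm_num) (by norm_num)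
  have u13 := h3 1 3 3 (by norm_num) le_rfl (by norm_num)
  have d13 := h4 1 3 2 (by norm_num) (by norm_num) (by norm_num)
  have u14 := h3 1 4 4 (by norm_num) le_rfl (by norm_num)
  have d14 := h4 1 4 3 (by norm_num) (by norm_num) (by norm_num)
  have u15 := h3 1 5 5 (by norm_num) le_rfl (by norm_num)
  have d15 := h4 1 5 4 (by norm_num) (by norm_num) (by norm_num)
  have u23 := h3 2 3 3 (by norm_num) le_rfl (by norm_num)
  have d23 := h4 2 3 2 (by norm_num) (by norm_num) (by norm_num)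
  have u24 := h3 2 4 4 (by norm_num) le_rfl (by norm_num)
  have d24 := h4 2 4 3 (by norm_num) (by norm_num) (by norm_num)
  have u25 := h3 2 5 5 (by norm_num) le_rfl (by norm_num)
  have d25 := h4 2 5 4 (by norm_num) (by norm_num) (by norm_num)
  have u34 := h3 3 4 4 (by norm_num) le_rfl (by norm_num)
  have d34 := h4 3 4 3 (by norm_num) (by norm_num) (by norm_num)
  have u35 := h3 3 5 5 (by norm_num) le_rfl (by norm_num)
  have d35 := h4 3 5 4 (by norm_num) (by norm_num) (by norm_num)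
  have u45 := h3 4 5 5 (by norm_num) le_rfl (by norm_num)
  have d45 := h4 4 5 4 (by norm_num) (by norm_num) (by norm_num)
  have p0 := h2 0
  refine tol6 hφ _ T h1
    (-L 5)
    (φ (T 3) (T 4) - φ (T 1) (T 3) + φ (T 0) (T 2))
    (φ (T 0) (T 3) - φ (T 0) (T 2) - φ (T 0) (T 2))
    (0)
    (-L 4)
    (-L 5)
    (φ (T 0) (T 3) - φ (T 0) (T 2))
    (2 * L 5)
    (φ (T 3) (T 4) - φ (T 1) (T 3) + φ (T 0) (T 2) + φ (T 1) (T 2))
    (φ (T 3) (T 4))
    (2 * L 4)
    (2 * L 5)
    ⟨by linarith, by linarith, by linarith, by linarith, by linarith, by linarith⟩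
    ?_ ?_ ?_ ?_ ?_ ?_ ?_ ?_ ?_ ?_ ?_ ?_ ?_ ?_ ?_
  · exact iff_of_false (by decide) fun ⟨c1, c2, c3, c4⟩ => by linarith
  · exact iff_of_true (by decide) ⟨by linarith, by linarith, by linarith, by linarith⟩
  · exact iff_of_false (by decide) fun ⟨c1, c2, c3, c4⟩ => by linarith
  · exact iff_of_true (by decide) ⟨by linarith, by linarith, by linarith, by linarith⟩
  · exact iff_of_true (by decide) ⟨by linarith, by linarith, by linarith, by linarith⟩
  · exact iff_of_true (by decide) ⟨by linarith, by linarith, by linarith, by linarith⟩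
  · exact iff_of_false (by decide) fun ⟨c1, c2, c3, c4⟩ => by linarith
  · exact iff_of_true (by decide) ⟨by linarith, by linarith, by linarith, by linarith⟩
  · exact iff_of_true (by decide) ⟨by linarith, by linarith, by linarith, by linarith⟩
  · exact iff_of_true (by decide) ⟨by linarith, by linarith, by linarith, by linarith⟩
  · exact iff_of_false (by decide) fun ⟨c1, c2, c3, c4⟩ => by linarith
  · exact iff_of_false (by decide) fun ⟨c1, c2, c3, c4⟩ => by linarith
  · exact iff_of_true (by decide) ⟨by linarith, by linarith, by linarith, by linarith⟩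
  · exact iff_of_false (by decide) fun ⟨c1, c2, c3, c4⟩ => by linarith
  · exact iff_of_false (by decide) fun ⟨c1, c2, c3, c4⟩ => by linarith

theorem tol_s2 {φ : ℝ → ℝ → ℝ} (hφ : IsArchimedeanFn φ) {T L : ℕ → ℝ} (h1 : ∀ i, 0 < T i)
    (h2 : ∀ i, 0 < L i) (h3 : ∀ i j h, i < j → j ≤ h → h < 6 → φ (T i) (T j) ≤ L h)
    (h4 : ∀ i j h, i < j → h < j → j < 6 → 10 * L h < φ (T i) (T j))
    (hx : φ (T 0) (T 2) < φ (T 3) (T 4) - φ (T 2) (T 4) - φ (T 1) (T 3) + φ (T 1) (T 2)) :
    IsToleranceGraph φ (gr 25011) := by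
  have u01 := h3 0 1 1 (by norm_num) le_rfl (by norm_num)
  have d01 := h4 0 1 0 (by norm_num) (by norm_num) (by norm_num)
  have u02 := h3 0 2 2 (by norm_num) le_rfl (by norm_num)
  have d02 := h4 0 2 1 (by norm_num) (by norm_num) (by norm_num)
  have u03 := h3 0 3 3 (by norm_num) le_rfl (by norm_num)
  have d03 := h4 0 3 2 (by norm_num) (by norm_num) (by norm_num)
  have u04 := h3 0 4 4 (by norm_num) le_rfl (by norm_num)
  have d04 := h4 0 4 3 (by norm_num) (by norm_num) (by norm_num)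
  have u05 := h3 0 5 5 (by norm_num) le_rfl (by norm_num)
  have d05 := h4 0 5 4 (by norm_num) (by norm_num) (by norm_num)
  have u12 := h3 1 2 2 (by norm_num) le_rfl (by norm_num)
  have d12 := h4 1 2 1 (by norm_num) (by norm_num) (by norm_num)
  have u13 := h3 1 3 3 (by norm_num) le_rfl (by norm_num)
  have d13 := h4 1 3 2 (by norm_num) (by norm_num) (by norm_num)
  have u14 := h3 1 4 4 (by norm_num) le_rfl (by norm_num)
  have d14 := h4 1 4 3 (by norm_num) (by norm_num) (by norm_num)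
  have u15 := h3 1 5 5 (by norm_num) le_rfl (by norm_num)
  have d15 := h4 1 5 4 (by norm_num) (by norm_num) (by norm_num)
  have u23 := h3 2 3 3 (by norm_num) le_rfl (by norm_num)
  have d23 := h4 2 3 2 (by norm_num) (by norm_num) (by norm_num)
  have u24 := h3 2 4 4 (by norm_num) le_rfl (by norm_num)
  have d24 := h4 2 4 3 (by norm_num) (by norm_num) (by norm_num)
  have u25 := h3 2 5 5 (by norm_num) le_rfl (by norm_num)
  have d25 := h4 2 5 4 (by norm_num) (by norm_num) (by norm_num)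
  have u34 := h3 3 4 4 (by norm_num) le_rfl (by norm_num)
  have d34 := h4 3 4 3 (by norm_num) (by norm_num) (by norm_num)
  have u35 := h3 3 5 5 (by norm_num) le_rfl (by norm_num)
  have d35 := h4 3 5 4 (by norm_num) (by norm_num) (by norm_num)
  have u45 := h3 4 5 5 (by norm_num) le_rfl (by norm_num)
  have d45 := h4 4 5 4 (by norm_num) (by norm_num) (by norm_num)
  have p0 := h2 0
  refine tol6 hφ _ T h1
    (-(2 * L 2))
    (-(2 * L 4))
    (0)
    (φ (T 1) (T 2) - φ (T 0) (T 2) - φ (T 1) (T 3))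
    (-L 5)
    (-L 5)
    (L 2)
    (φ (T 1) (T 2) - φ (T 0) (T 2))
    (L 4)
    (L 5)
    (φ (T 2) (T 4))
    (L 5)
    ⟨by linarith, by linarith, by linarith, by linarith, by linarith, by linarith⟩
    ?_ ?_ ?_ ?_ ?_ ?_ ?_ ?_ ?_ ?_ ?_ ?_ ?_ ?_ ?_
  · exact iff_of_true (by decide) ⟨by linarith, by linarith, by linarith, by linarith⟩
  · exact iff_of_true (by decide) ⟨by linarith, by linarith, by linarith, by linarith⟩
  · exact iff_of_false (by decide) fun ⟨c1, c2, c3, c4⟩ => by linarith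
  · exact iff_of_false (by decide) fun ⟨c1, c2, c3, c4⟩ => by linarith
  · exact iff_of_false (by decide) fun ⟨c1, c2, c3, c4⟩ => by linarith
  · exact iff_of_false (by decide) fun ⟨c1, c2, c3, c4⟩ => by linarith
  · exact iff_of_true (by decide) ⟨by linarith, by linarith, by linarith, by linarith⟩
  · exact iff_of_true (by decide) ⟨by linarith, by linarith, by linarith, by linarith⟩
  · exact iff_of_false (by decide) fun ⟨c1, c2, c3, c4⟩ => by linarith
  · exact iff_of_true (by decide) ⟨by linarith, by linarith, by linarith, by linarith⟩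
  · exact iff_of_true (by decide) ⟨by linarith, by linarith, by linarith, by linarith⟩
  · exact iff_of_false (by decide) fun ⟨c1, c2, c3, c4⟩ => by linarith
  · exact iff_of_false (by decide) fun ⟨c1, c2, c3, c4⟩ => by linarith
  · exact iff_of_true (by decide) ⟨by linarith, by linarith, by linarith, by linarith⟩
  · exact iff_of_true (by decide) ⟨by linarith, by linarith, by linarith, by linarith⟩

theorem tol_pa {φ : ℝ → ℝ → ℝ} (hφ : IsArchimedeanFn φ) {T L : ℕ → ℝ} (h1 : ∀ i, 0 < T i)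
    (h2 : ∀ i, 0 < L i) (h3 : ∀ i j h, i < j → j ≤ h → h < 6 → φ (T i) (T j) ≤ L h)
    (h4 : ∀ i j h, i < j → h < j → j < 6 → 10 * L h < φ (T i) (T j))
    (hx : φ (T 0) (T 4) ≤ φ (T 1) (T 4)) :
    IsToleranceGraph φ (gr 22905) := by
  have u01 := h3 0 1 1 (by norm_num) le_rfl (by norm_num)
  have d01 := h4 0 1 0 (by norm_num) (by norm_num) (by norm_num)
  have u02 := h3 0 2 2 (by norm_num) le_rfl (by norm_num)
  have d02 := h4 0 2 1 (by norm_num) (by norm_num) (by norm_num)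
  have u03 := h3 0 3 3 (by norm_num) le_rfl (by norm_num)
  have d03 := h4 0 3 2 (by norm_num) (by norm_num) (by norm_num)
  have u04 := h3 0 4 4 (by norm_num) le_rfl (by norm_num)
  have d04 := h4 0 4 3 (by norm_num) (by norm_num) (by norm_num)
  have u05 := h3 0 5 5 (by norm_num) le_rfl (by norm_num)
  have d05 := h4 0 5 4 (by norm_num) (by norm_num) (by norm_num)
  have u12 := h3 1 2 2 (by norm_num) le_rfl (by norm_num)
  have d12 := h4 1 2 1 (by norm_num) (by norm_num) (by norm_num)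
  have u13 := h3 1 3 3 (by norm_num) le_rfl (by norm_num)
  have d13 := h4 1 3 2 (by norm_num) (by norm_num) (by norm_num)
  have u14 := h3 1 4 4 (by norm_num) le_rfl (by norm_num)
  have d14 := h4 1 4 3 (by norm_num) (by norm_num) (by norm_num)
  have u15 := h3 1 5 5 (by norm_num) le_rfl (by norm_num)
  have d15 := h4 1 5 4 (by norm_num) (by norm_num) (by norm_num)
  have u23 := h3 2 3 3 (by norm_num) le_rfl (by norm_num)
  have d23 := h4 2 3 2 (by norm_num) (by norm_num) (by norm_num)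
  have u24 := h3 2 4 4 (by norm_num) le_rfl (by norm_num)
  have d24 := h4 2 4 3 (by norm_num) (by norm_num) (by norm_num)
  have u25 := h3 2 5 5 (by norm_num) le_rfl (by norm_num)
  have d25 := h4 2 5 4 (by norm_num) (by norm_num) (by norm_num)
  have u34 := h3 3 4 4 (by norm_num) le_rfl (by norm_num)
  have d34 := h4 3 4 3 (by norm_num) (by norm_num) (by norm_num)
  have u35 := h3 3 5 5 (by norm_num) le_rfl (by norm_num)
  have d35 := h4 3 5 4 (by norm_num) (by norm_num) (by norm_num)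
  have u45 := h3 4 5 5 (by norm_num) le_rfl (by norm_num)
  have d45 := h4 4 5 4 (by norm_num) (by norm_num) (by norm_num)
  have p0 := h2 0
  refine tol6 hφ _ T h1
    (L 3)
    (2 * L 3)
    (-L 5)
    (0)
    (-L 5)
    (-L 5)
    (2 * L 4)
    (2 * L 5)
    (L 3)
    (3 * L 3)
    (L 3 + φ (T 0) (T 4))
    (2 * L 5)
    ⟨by linarith, by linarith, by linarith, by linarith, by linarith, by linarith⟩
    ?_ ?_ ?_ ?_ ?_ ?_ ?_ ?_ ?_ ?_ ?_ ?_ ?_ ?_ ?_
  · exact iff_of_true (by decide) ⟨by linarith, by linarith, by linarith, by linarith⟩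
  · exact iff_of_false (by decide) fun ⟨c1, c2, c3, c4⟩ => by linarith
  · exact iff_of_true (by decide) ⟨by linarith, by linarith, by linarith, by linarith⟩
  · exact iff_of_true (by decide) ⟨by linarith, by linarith, by linarith, by linarith⟩
  · exact iff_of_false (by decide) fun ⟨c1, c2, c3, c4⟩ => by linarith
  · exact iff_of_false (by decide) fun ⟨c1, c2, c3, c4⟩ => by linarith
  · exact iff_of_true (by decide) ⟨by linarith, by linarith, by linarith, by linarith⟩
  · exact iff_of_false (by decide) fun ⟨c1, c2, c3, c4⟩ => by linarith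
  · exact iff_of_true (by decide) ⟨by linarith, by linarith, by linarith, by linarith⟩
  · exact iff_of_true (by decide) ⟨by linarith, by linarith, by linarith, by linarith⟩
  · exact iff_of_true (by decide) ⟨by linarith, by linarith, by linarith, by linarith⟩
  · exact iff_of_true (by decide) ⟨by linarith, by linarith, by linarith, by linarith⟩
  · exact iff_of_false (by decide) fun ⟨c1, c2, c3, c4⟩ => by linarith
  · exact iff_of_false (by decide) fun ⟨c1, c2, c3, c4⟩ => by linarith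
  · exact iff_of_true (by decide) ⟨by linarith, by linarith, by linarith, by linarith⟩

theorem tol_pb {φ : ℝ → ℝ → ℝ} (hφ : IsArchimedeanFn φ) {T L : ℕ → ℝ} (h1 : ∀ i, 0 < T i)
    (h2 : ∀ i, 0 < L i) (h3 : ∀ i j h, i < j → j ≤ h → h < 6 → φ (T i) (T j) ≤ L h)
    (h4 : ∀ i j h, i < j → h < j → j < 6 → 10 * L h < φ (T i) (T j))
    (hx : φ (T 1) (T 4) ≤ φ (T 0) (T 4)) :
    IsToleranceGraph φ (gr 21945) := by
  have u01 := h3 0 1 1 (by norm_num) le_rfl (by norm_num)
  have d01 := h4 0 1 0 (by norm_num) (by norm_num) (by norm_num)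
  have u02 := h3 0 2 2 (by norm_num) le_rfl (by norm_num)
  have d02 := h4 0 2 1 (by norm_num) (by norm_num) (by norm_num)
  have u03 := h3 0 3 3 (by norm_num) le_rfl (by norm_num)
  have d03 := h4 0 3 2 (by norm_num) (by norm_num) (by norm_num)
  have u04 := h3 0 4 4 (by norm_num) le_rfl (by norm_num)
  have d04 := h4 0 4 3 (by norm_num) (by norm_num) (by norm_num)
  have u05 := h3 0 5 5 (by norm_num) le_rfl (by norm_num)
  have d05 := h4 0 5 4 (by norm_num) (by norm_num) (by norm_num)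
  have u12 := h3 1 2 2 (by norm_num) le_rfl (by norm_num)
  have d12 := h4 1 2 1 (by norm_num) (by norm_num) (by norm_num)
  have u13 := h3 1 3 3 (by norm_num) le_rfl (by norm_num)
  have d13 := h4 1 3 2 (by norm_num) (by norm_num) (by norm_num)
  have u14 := h3 1 4 4 (by norm_num) le_rfl (by norm_num)
  have d14 := h4 1 4 3 (by norm_num) (by norm_num) (by norm_num)
  have u15 := h3 1 5 5 (by norm_num) le_rfl (by norm_num)
  have d15 := h4 1 5 4 (by norm_num) (by norm_num) (by norm_num)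
  have u23 := h3 2 3 3 (by norm_num) le_rfl (by norm_num)
  have d23 := h4 2 3 2 (by norm_num) (by norm_num) (by norm_num)
  have u24 := h3 2 4 4 (by norm_num) le_rfl (by norm_num)
  have d24 := h4 2 4 3 (by norm_num) (by norm_num) (by norm_num)
  have u25 := h3 2 5 5 (by norm_num) le_rfl (by norm_num)
  have d25 := h4 2 5 4 (by norm_num) (by norm_num) (by norm_num)
  have u34 := h3 3 4 4 (by norm_num) le_rfl (by norm_num)
  have d34 := h4 3 4 3 (by norm_num) (by norm_num) (by norm_num)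
  have u35 := h3 3 5 5 (by norm_num) le_rfl (by norm_num)
  have d35 := h4 3 5 4 (by norm_num) (by norm_num) (by norm_num)
  have u45 := h3 4 5 5 (by norm_num) le_rfl (by norm_num)
  have d45 := h4 4 5 4 (by norm_num) (by norm_num) (by norm_num)
  have p0 := h2 0
  refine tol6 hφ _ T h1
    (2 * L 3)
    (L 3)
    (-L 5)
    (0)
    (-L 5)
    (-L 5)
    (2 * L 5)
    (2 * L 4)
    (L 3)
    (3 * L 3)
    (L 3 + φ (T 1) (T 4))
    (2 * L 5)
    ⟨by linarith, by linarith, by linarith, by linarith, by linarith, by linarith⟩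
    ?_ ?_ ?_ ?_ ?_ ?_ ?_ ?_ ?_ ?_ ?_ ?_ ?_ ?_ ?_
  · exact iff_of_true (by decide) ⟨by linarith, by linarith, by linarith, by linarith⟩
  · exact iff_of_false (by decide) fun ⟨c1, c2, c3, c4⟩ => by linarith
  · exact iff_of_true (by decide) ⟨by linarith, by linarith, by linarith, by linarith⟩
  · exact iff_of_false (by decide) fun ⟨c1, c2, c3, c4⟩ => by linarith
  · exact iff_of_true (by decide) ⟨by linarith, by linarith, by linarith, by linarith⟩
  · exact iff_of_false (by decide) fun ⟨c1, c2, c3, c4⟩ => by linarith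
  · exact iff_of_true (by decide) ⟨by linarith, by linarith, by linarith, by linarith⟩
  · exact iff_of_true (by decide) ⟨by linarith, by linarith, by linarith, by linarith⟩
  · exact iff_of_false (by decide) fun ⟨c1, c2, c3, c4⟩ => by linarith
  · exact iff_of_true (by decide) ⟨by linarith, by linarith, by linarith, by linarith⟩
  · exact iff_of_true (by decide) ⟨by linarith, by linarith, by linarith, by linarith⟩
  · exact iff_of_true (by decide) ⟨by linarith, by linarith, by linarith, by linarith⟩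
  · exact iff_of_false (by decide) fun ⟨c1, c2, c3, c4⟩ => by linarith
  · exact iff_of_false (by decide) fun ⟨c1, c2, c3, c4⟩ => by linarith
  · exact iff_of_true (by decide) ⟨by linarith, by linarith, by linarith, by linarith⟩

theorem ham3 (R : Fin 3 → Fin 3 → Prop) (h : ∀ u v, u ≠ v → R u v ∨ R v u) :
    ∃ x m y, R x m ∧ R m y := by
  rcases h 0 1 (by decide) with a | a <;> rcases h 1 2 (by decide) with b | b <;>
    rcases h 0 2 (by decide) with c | c <;>
    first
      | exact ⟨_, _, _, a, b⟩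
      | exact ⟨_, _, _, b, a⟩
      | exact ⟨_, _, _, a, c⟩
      | exact ⟨_, _, _, c, a⟩
      | exact ⟨_, _, _, b, c⟩
      | exact ⟨_, _, _, c, b⟩

/-- one triangle lies beyond another one -/
def SP (p q r : Fin 3 → ℝ) (u v : Fin 3) : Prop := 0 < p u + q v + r v

/-- all triangles of one family meet all triangles of the other one -/
def Meet (p q r p' q' r' : Fin 3 → ℝ) : Prop := ∀ u v,
  p u + q' v + r' v ≤ 0 ∧ q u + p' v + r' v ≤ 0 ∧ r u + p' v + q' v ≤ 0 ∧
    p' v + q u + r u ≤ 0 ∧ q' v + p u + r u ≤ 0 ∧ r' v + p u + q u ≤ 0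

theorem k33_dir {p q r p' q' r' : Fin 3 → ℝ} (E : Meet p q r p' q' r')
    (h : ∃ u v, SP p q r u v) (h' : ∃ u v, SP p' q' r' u v) : False := by
  obtain ⟨u, v, h⟩ := h
  obtain ⟨u', v', h'⟩ := h'
  have a1 := (E u v').1
  have a2 := (E v u').2.2.2.1
  unfold SP at h h'
  linarith

theorem k33_core {p q r p' q' r' : Fin 3 → ℝ} (E : Meet p q r p' q' r')
    (hA : ∀ u v, u ≠ v → SP p q r u v ∨ SP p q r v u)
    (hB : ∀ u v, u ≠ v → SP q' p' r' u v ∨ SP q' p' r' v u ∨ SP r' p' q' u v ∨ SP r' p' q' v u) :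
    False := by
  obtain ⟨x, m, y, h1, h2⟩ := ham3 _ hA
  unfold SP at h1 h2 hB
  have a1 : ∀ v, p' v < p m := fun v => by linarith [(E y v).2.2.2.1]
  obtain ⟨u, v, w, h3, h4⟩ := ham3 (fun v w => 0 < p m + q' w + r' v) fun u v huv => by
    rcases hB u v huv with h | h | h | h
    · exact Or.inr (by linarith [a1 v])
    · exact Or.inl (by linarith [a1 u])
    · exact Or.inl (by linarith [a1 v])
    · exact Or.inr (by linarith [a1 u])
  linarith [(E x v).1, (E m u).2.2.2.2.2, (E m w).2.2.2.2.1]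

theorem Meet.swap {p q r p' q' r' : Fin 3 → ℝ} (E : Meet p q r p' q' r') :
    Meet p' q' r' p q r := fun u v =>
  ⟨(E v u).2.2.2.1, (E v u).2.2.2.2.1, (E v u).2.2.2.2.2, (E v u).1, (E v u).2.1, (E v u).2.2.1⟩

theorem Meet.s12 {p q r p' q' r' : Fin 3 → ℝ} (E : Meet p q r p' q' r') :
    Meet q p r q' p' r' := fun u v => by
  obtain ⟨a, b, c, d, e, f⟩ := E u v
  exact ⟨b, a, by linarith, e, d, by linarith⟩

theorem Meet.s13 {p q r p' q' r' : Fin 3 → ℝ} (E : Meet p q r p' q' r') :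
    Meet r p q r' p' q' := fun u v => by
  obtain ⟨a, b, c, d, e, f⟩ := E u v
  exact ⟨c, by linarith, by linarith, f, by linarith, by linarith⟩

/-- any two triangles of the family are disjoint -/
def Apart (p q r : Fin 3 → ℝ) : Prop := ∀ u v, u ≠ v →
  SP p q r u v ∨ SP p q r v u ∨ SP q p r u v ∨ SP q p r v u ∨ SP r p q u v ∨ SP r p q v u

theorem SP.flip {p q r : Fin 3 → ℝ} {u v : Fin 3} (h : SP p q r u v) : SP p r q u v := by
  unfold SP at h ⊢
  linarith

theorem Apart.s12 {p q r : Fin 3 → ℝ} (h : Apart p q r) : Apart q p r := fun u v huv => by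
  rcases h u v huv with a | a | a | a | a | a
  · exact Or.inr (Or.inr (Or.inl a))
  · exact Or.inr (Or.inr (Or.inr (Or.inl a)))
  · exact Or.inl a
  · exact Or.inr (Or.inl a)
  · exact Or.inr (Or.inr (Or.inr (Or.inr (Or.inl a.flip))))
  · exact Or.inr (Or.inr (Or.inr (Or.inr (Or.inr a.flip))))

theorem Apart.s13 {p q r : Fin 3 → ℝ} (h : Apart p q r) : Apart r p q := fun u v huv => by
  rcases h u v huv with a | a | a | a | a | a
  · exact Or.inr (Or.inr (Or.inl a.flip))
  · exact Or.inr (Or.inr (Or.inr (Or.inl a.flip)))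
  · exact Or.inr (Or.inr (Or.inr (Or.inr (Or.inl a.flip))))
  · exact Or.inr (Or.inr (Or.inr (Or.inr (Or.inr a.flip))))
  · exact Or.inl a
  · exact Or.inr (Or.inl a)

theorem k33_one {p q r p' q' r' : Fin 3 → ℝ} (E : Meet p q r p' q' r') (hA : Apart p q r)
    (hB : Apart p' q' r') (h2 : ¬ ∃ u v, SP q p r u v) (h3 : ¬ ∃ u v, SP r p q u v) : False := by
  have h1 : ∀ u v, u ≠ v → SP p q r u v ∨ SP p q r v u := fun u v huv => by
    rcases hA u v huv with a | a | a | a | a | a
    · exact Or.inl a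
    · exact Or.inr a
    · exact absurd ⟨_, _, a⟩ h2
    · exact absurd ⟨_, _, a⟩ h2
    · exact absurd ⟨_, _, a⟩ h3
    · exact absurd ⟨_, _, a⟩ h3
  have h4 : ∃ u v, SP p q r u v := (h1 0 1 (by decide)).elim (fun a => ⟨_, _, a⟩) fun a => ⟨_, _, a⟩
  refine k33_core E h1 fun u v huv => ?_
  rcases hB u v huv with a | a | a
  · exact absurd ⟨_, _, a⟩ (k33_dir E h4)
  · exact absurd ⟨_, _, a⟩ (k33_dir E h4)
  · exact a

theorem k33_all {p q r p' q' r' : Fin 3 → ℝ} (E : Meet p q r p' q' r') (hA : Apart p q r)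
    (hB : Apart p' q' r') : False := by
  have fl : ∀ {p q r : Fin 3 → ℝ}, (¬ ∃ u v, SP p q r u v) → ¬ ∃ u v, SP p r q u v :=
    fun h ⟨u, v, a⟩ => h ⟨u, v, a.flip⟩
  by_cases a1 : ∃ u v, SP p q r u v <;> by_cases a2 : ∃ u v, SP q p r u v <;>
    by_cases a3 : ∃ u v, SP r p q u v
  · exact k33_one E.swap hB hA (k33_dir E.s12 a2) (k33_dir E.s13 a3)
  · exact k33_one E.swap.s13 hB.s13 hA.s13 (fl (k33_dir E a1)) (fl (k33_dir E.s12 a2))
  · exact k33_one E.swap.s12 hB.s12 hA.s12 (k33_dir E a1) (fl (k33_dir E.s13 a3))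
  · exact k33_one E hA hB a2 a3
  · exact k33_one E.swap hB hA (k33_dir E.s12 a2) (k33_dir E.s13 a3)
  · exact k33_one E.s12 hA.s12 hB.s12 a1 (fl a3)
  · exact k33_one E.s13 hA.s13 hB.s13 (fl a1) (fl a2)
  · exact k33_one E hA hB a2 a3

/-- `K_{3,3}` is not a max-tolerance graph. -/
theorem k33_not_max :
    ¬ IsToleranceGraph (fun x y => max x y) (completeBipartiteGraph (Fin 3) (Fin 3)) := by
  rintro ⟨a, b, t, -, ht, h⟩
  have h' : ∀ u v, u ≠ v → ((completeBipartiteGraph (Fin 3) (Fin 3)).Adj u v ↔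
      (t u ≤ b u - a u ∧ t v ≤ b u - a u) ∧ (t u ≤ b u - a v ∧ t v ≤ b u - a v) ∧
      (t u ≤ b v - a u ∧ t v ≤ b v - a u) ∧ (t u ≤ b v - a v ∧ t v ≤ b v - a v)) := by
    intro u v huv
    rw [h u v huv, le_len_iff (lt_max_of_lt_left (ht u))]
    simp only [max_le_iff]
  have E := fun u v : Fin 3 => (h' (Sum.inl u) (Sum.inr v) (by simp)).1 (by simp)
  have A : ∀ f : Fin 3 → Fin 3 ⊕ Fin 3, Function.Injective f →
      (∀ u, t (f u) ≤ b (f u) - a (f u)) →
      (∀ u v, ¬ (completeBipartiteGraph (Fin 3) (Fin 3)).Adj (f u) (f v)) →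
      Apart (fun u => a (f u)) (fun u => -b (f u)) (fun u => t (f u)) := by
    intro f hf h1 h2 u v huv
    by_contra hc
    simp only [SP, not_or, not_lt] at hc
    obtain ⟨c1, c2, c3, c4, c5, c6⟩ := hc
    exact h2 u v ((h' _ _ (hf.ne huv)).2 ⟨⟨h1 u, by linarith⟩, ⟨by linarith, by linarith⟩,
      ⟨by linarith, by linarith⟩, by linarith, h1 v⟩)
  refine k33_all (fun u v => ?_) (A Sum.inl Sum.inl_injective (fun u => (E u 0).1.1) (by simp))
    (A Sum.inr Sum.inr_injective (fun u => (E 0 u).2.2.2.2) (by simp))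
  obtain ⟨⟨c1, c2⟩, ⟨c3, c4⟩, ⟨c5, c6⟩, c7, c8⟩ := E u v
  exact ⟨by linarith, by linarith, by linarith, by linarith, by linarith, by linarith⟩

theorem oct_max : IsToleranceGraph (fun x y => max x y) (gr 16350) := by
  refine tol6 isArchimedeanFn_max _ (fun i => if i = 5 then 4 else if i % 2 = 1 then 3 else 1)
    (fun i => by split_ifs <;> norm_num) 0 2 3 0 2 0 4 6 7 5 5 7 (by norm_num)
    ?_ ?_ ?_ ?_ ?_ ?_ ?_ ?_ ?_ ?_ ?_ ?_ ?_ ?_ ?_
  · exact iff_of_false (by decide) (by norm_num [Ov])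
  · exact iff_of_true (by decide) (by norm_num [Ov])
  · exact iff_of_true (by decide) (by norm_num [Ov])
  · exact iff_of_true (by decide) (by norm_num [Ov])
  · exact iff_of_true (by decide) (by norm_num [Ov])
  · exact iff_of_true (by decide) (by norm_num [Ov])
  · exact iff_of_true (by decide) (by norm_num [Ov])
  · exact iff_of_true (by decide) (by norm_num [Ov])
  · exact iff_of_true (by decide) (by norm_num [Ov])
  · exact iff_of_false (by decide) (by norm_num [Ov])
  · exact iff_of_true (by decide) (by norm_num [Ov])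
  · exact iff_of_true (by decide) (by norm_num [Ov])
  · exact iff_of_true (by decide) (by norm_num [Ov])
  · exact iff_of_true (by decide) (by norm_num [Ov])
  · exact iff_of_false (by decide) (by norm_num [Ov])

end Pool.Agent.Lib.MP_3f93e8_co
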