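import Mathlib
import Pool.Agent.Lib.MP_3f93e8_co.SixA

set_option autoImplicit false

namespace Pool.Agent.Lib.MP_3f93e8_co

/-- binary number with digits `f k % 2` -/
def enc (f : ℕ → ℕ) (n : ℕ) : ℕ :=
  Nat.rec 0 (fun n s => Nat.add (Nat.mul (Nat.pow 2 n) (Nat.mod (f n) 2)) s) n

theorem enc_succ (f : ℕ → ℕ) (n : ℕ) : enc f (n + 1) = 2 ^ n * (f n % 2) + enc f n := rfl

theorem enc_lt (f : ℕ → ℕ) (n : ℕ) : enc f n < 2 ^ n := by
  induction n with
  | zero => simp [enc]
  | succ n ih =>
    rw [enc_succ, pow_succ]
    rcases Nat.mod_two_eq_zero_or_one (f n) with h | h <;> rw [h] <;> omega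

theorem testBit_enc (f : ℕ → ℕ) {n k : ℕ} (h : k < n) :
    (enc f n).testBit k = true ↔ f k % 2 = 1 := by
  induction n with
  | zero => omega
  | succ n ih =>
    rw [enc_succ, Nat.testBit_two_pow_mul_add _ (enc_lt f n)]
    by_cases hk : k < n
    · rw [if_pos hk, ih hk]
    · rw [if_neg hk, show k = n by omega, Nat.sub_self, Nat.testBit_zero, decide_eq_true_iff,
        Nat.mod_mod]

theorem idx_lt : ∀ u v : Fin 6, u ≠ v → idx u v < 15 := by decide

theorem idx_inj : ∀ u v u' v' : Fin 6, u ≠ v → u' ≠ v' → idx u' v' = idx u v →
    (u' = u ∧ v' = v) ∨ (u' = v ∧ v' = u) := by decide +kernel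

theorem exists_code (G : SimpleGraph (Fin 6)) : ∃ x, x < 2 ^ 15 ∧ gr x = G := by
  classical
  refine ⟨enc (fun k => if ∃ u v : Fin 6, idx u v = k ∧ G.Adj u v then 1 else 0) 15,
    enc_lt _ _, ?_⟩
  ext u v
  constructor
  · rintro ⟨h1, h2⟩
    rw [testBit_enc _ (idx_lt u v h1)] at h2
    by_cases h : ∃ u' v' : Fin 6, idx u' v' = idx u v ∧ G.Adj u' v'
    · obtain ⟨u', v', h3, h4⟩ := h
      rcases idx_inj u v u' v' h1 h4.ne h3 with ⟨rfl, rfl⟩ | ⟨rfl, rfl⟩
      · exact h4
      · exact h4.symm
    · rw [if_neg h] at h2
      omega
  · intro h
    refine ⟨h.ne, ?_⟩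
    rw [testBit_enc _ (idx_lt u v h.ne), if_pos ⟨u, v, rfl, h⟩]

/-- hexadecimal digit -/
def dg (m k : ℕ) : ℕ := Nat.mod (Nat.shiftRight m (Nat.mul 4 k)) 16

/-- relabelled code -/
def act (x m : ℕ) : ℕ := enc (fun k => Nat.shiftRight x (dg m k)) 15

/-- the relabelling -/
def pm (c : ℕ) (u : Fin 6) : Fin 6 := Fin.ofNat 6 (dg c u)

/-- consistency of a relabelling and its table -/
def Ok (c m : ℕ) : Prop :=
  ∀ u v : Fin 6, u ≠ v → pm c u ≠ pm c v ∧ dg m (idx u v) = idx (pm c u) (pm c v)

instance (c m : ℕ) : Decidable (Ok c m) := by unfold Ok; infer_instance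

theorem act_iso {c m : ℕ} (h : Ok c m) (x : ℕ) : Nonempty (gr (act x m) ≃g gr x) := by
  have hi : Function.Injective (pm c) := fun u v huv => by_contra fun hne => (h u v hne).1 huv
  refine ⟨⟨Equiv.ofBijective (pm c) (Finite.injective_iff_bijective.1 hi), ?_⟩⟩
  intro u v
  change (pm c u ≠ pm c v ∧ _) ↔ (u ≠ v ∧ _)
  rw [hi.ne_iff]
  refine and_congr_right fun huv => ?_
  rw [act, testBit_enc _ (idx_lt u v huv), (h u v huv).2, Nat.testBit_eq_decide_div_mod_eq,
    decide_eq_true_iff, ← Nat.shiftRight_eq_div_pow]
  rfl

/-- validity of a representation by points with heights -/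
def Val (x D : ℕ) : Prop :=
  (∀ v : Fin 6, dg D v ≤ dg D (6 + v) ∧ dg D (6 + v) ≤ 9 ∧ dg D (12 + v) < 6) ∧
  (∀ k, k < 9 → dg D (18 + k) < 6) ∧
  ∀ u v : Fin 6, u < v → dg D (12 + u) ≠ dg D (12 + v) ∧ ((gr x).Adj u v ↔ ∃ k, k < 9 ∧
    dg D u ≤ k ∧ k < dg D (6 + u) ∧ dg D v ≤ k ∧ k < dg D (6 + v) ∧
      dg D (12 + u) ≤ dg D (18 + k) ∧ dg D (12 + v) ≤ dg D (18 + k))

instance (x D : ℕ) : Decidable (Val x D) := by unfold Val; infer_instance

theorem arch_of_val {x D : ℕ} (h : Val x D) : IsArchimedeanGraph (gr x) :=
  arch_of_rep _ (fun v => dg D v) (fun v => dg D (6 + v)) (fun v => dg D (12 + v))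
    (fun k => dg D (18 + k)) h.1 h.2.1 h.2.2

/-- the relabellings used -/
def taus : List (ℕ × ℕ) := [
  (5517825, 1070919482464223520), (5517600, 1070672088572178945), (5514000, 1066713786315052080),
  (5456400, 1003381967242617360), (4534800, 1051721203381973520), (2372880, 602393414642973600),
  (1323600, 523174677474786330), (5321280, 854815600367187990), (4526130, 1042188292105446165),
  (5456160, 1003118080424436225), (3228960, 332513735793470625), (4534785, 1051704710455836960),
  (4534560, 1051457316563792385), (4530960, 1047499014306665520), (5456385, 1003365474316480800),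
  (5379120, 918411240730265955), (2164035, 152142771671940825)]

/-- the representations -/
def reps : List (ℕ × ℕ) := [
  (0, 1553133885493126103040), (1, 6275500368363056529408), (3, 157391227820200310079744),
  (7, 10997866851236996710400), (11, 3784168686664294009413888), (12, 237671458029117422702593),
  (13, 3713333189421245304676353), (15, 237671458029117422702592),
  (30, 60613126941517678313996576), (31, 237671458029117691138048),
  (63, 15720233334175361400832), (75, 81155421142004959254094080),
  (76, 5073374736490932673318913), (77, 81084585644761910549356545),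
  (79, 5073374736490932673318912), (86, 79955940055355936494256386),
  (87, 5002539239247823839035649), (94, 1298553166226903450284982530),
  (95, 5073374736490932941754368), (116, 317951688240031695175681),
  (117, 4926981375521905220648961), (119, 5002539239247823839035393),
  (127, 317951688240031695175680), (222, 20776846252088018670685524528),
  (223, 5073374736490933210189824), (235, 317951688240031963611152),
  (236, 1280499559162892732963230256), (237, 80036202991740163025076752),
  (239, 5002539239247824107470864), (254, 81245146105179487579672864),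
  (255, 317951688240031963611136), (507, 81245146105179491371323905),
  (511, 317951688240036258578432), (1023, 20442599818144518242304),
  (1099, 1628580470248818263829192960), (1100, 101787440305731635413913601),
  (1101, 1628509634751575215124455425), (1103, 101787440305731635413913600),
  (1108, 101787440305731635682349058), (1109, 1626242898839797716970835970),
  (1110, 1627380989162169241069355266), (1111, 101716604808488526579630337),
  (1118, 26057353951934614501405753602), (1119, 101787440305731635682349056),
  (1140, 6362580786365954145714177), (1141, 101641046944762607961243649),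
  (1143, 101716604808488526579630081), (1151, 6362580786365954145714176),
  (1182, 25728606409229639825090417155), (1183, 100512401355354705734148353),
  (1184, 6362580786365954414149650), (1185, 98240943077095364164124690),
  (1187, 1263494317458131771113865265), (1191, 100512365686846623327518738),
  (1194, 5229212830460747139121184), (1195, 78973687826954226593103904),
  (1196, 1609251824234429580717334787), (1197, 26019881956599219163470364691),
  (1198, 100512401355354709760680194), (1199, 100512401355354709760680193),
  (1214, 100587959219080624084095234), (1215, 6291745289121883238699265),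
  (1246, 416917658823409829782975681027), (1247, 101787440305731635950784512),
  (1259, 6362580786365954414149648), (1260, 26058567600120712000225419523),
  (1261, 1628594620054443273406775314), (1263, 101716604808488526848065552),
  (1268, 101867720535940350931435522), (1269, 6362580786365954414149633),
  (1270, 1627461269392378093757272322), (1271, 101716604808488526848065537),
  (1278, 1628670195211992791651455234), (1279, 6362580786365954414149632),
  (1456, 1628670195211992795946422788), (1457, 25149530941634235603449024548),
  (1459, 416626387410416716559972045826), (1460, 6362580786365958709116930),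
  (1461, 98240943077095368459091970), (1463, 99449868896710001928765442),
  (1465, 1628670177918169187998564387), (1467, 1628749904746022787660911361),
  (1468, 100587959219080619789127682), (1469, 100587959219080620057563138),
  (1471, 6291745289121883238699009), (1531, 1628670195211992795946422785),
  (1532, 1628670195211992787356487682), (1533, 1628670195211992787893358610),
  (1535, 6362580786365958709116928), (1972, 398231918482900525252609),
  (1973, 6140629561669981577412609), (1975, 6216187425395900195799041),
  (1983, 6291745289121883238694913), (2047, 398231918482900525252608),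
  (3294, 6670682541489379475683767558976), (3295, 101787440305731636219219968),
  (3306, 1630025514392576234567630896), (3307, 6362580786365954682585104),
  (3308, 416628805832752142130765439808), (3309, 1591197905881578676166918928),
  (3310, 26039380625100812568315896368), (3311, 101716604808488527116501008),
  (3326, 26058723438214646703830671920), (3327, 6362580786365954682585088),
  (3440, 25750447354212914133960045120), (3441, 1609407385627154803659383568),
  (3443, 100667928160450251850908161), (3447, 1606989810689136125234196768),
  (3448, 417247775835101007637528056656), (3449, 1609407385627154803676160784),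
  (3451, 100587959219080620325998624), (3452, 26058723420920823108230845248),
  (3453, 1609407385627154803944596240), (3455, 6291745289121883507134480),
  (3577, 1628670195211992788161794082), (3578, 26058723438214646699535704368),
  (3579, 1628670195211992788161794081), (3582, 26058723438214646708125639216),
  (3583, 6362580786365958977552384), (3873, 398231918482900793688081),
  (3875, 6216187425395900464234529), (3879, 6216187425395900464234513),
  (3885, 99378462703289401930351120), (3887, 99379033399465926726778913),
  (3903, 6291745289121883507130385), (3947, 398231918482900793688080),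
  (3948, 1591273775034146976738382384), (3949, 99383185069772271575368208),
  (3950, 99459313629675810170409248), (3951, 6216187425395900464234512),
  (3958, 1610616588147981112253161776), (3959, 1608198459807540243489370640),
  (3966, 100668239449290508064592160), (3967, 6291745289121883507130384),
  (4094, 101877165268906236750926112), (4095, 398231918482900793688064),
  (7673, 26058723438214646711615300352), (7675, 26058723438214646711665632002),
  (7679, 6362580786365963272519680), (7902, 100592110889404488909586720),
  (7903, 398231918482905088655616), (7915, 1610616588147981115793154817),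
  (7917, 1610616276859141942968254482), (7919, 100667962748096485289632001),
  (7934, 1609407091632206378264695088), (7935, 6291745289121887802097920),
  (8185, 101877165268906240509022720), (8187, 101877165268906240542577153),
  (8191, 398231918482905088655360), (16351, 101877165268906301208993809),
  (16383, 398231918482973808132096), (32767, 25164966318606349500416)]

theorem taus_ok : ∀ e ∈ taus, Ok e.1 e.2 := by decide +kernel

theorem reps_ok : ∀ e ∈ reps, Val e.1 e.2 := by decide +kernel

/-- check all numbers in a dyadic block -/
def allB (f : ℕ → Bool) (d : ℕ) : ℕ → Bool :=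
  Nat.rec (fun lo => Nat.rec (f 0) (fun k _ => f (Nat.succ k)) lo)
    (fun _ g lo => g (Nat.mul 2 lo) && g (Nat.succ (Nat.mul 2 lo))) d

theorem allB_spec (f : ℕ → Bool) (d : ℕ) : ∀ lo, allB f d lo = true →
    ∀ x, x / 2 ^ d = lo → f x = true := by
  induction d with
  | zero =>
    intro lo h x hx
    rw [pow_zero, Nat.div_one] at hx
    rw [hx]
    cases lo <;> exact h
  | succ d ih =>
    intro lo h x hx
    replace h : (allB f d (2 * lo) && allB f d (2 * lo + 1)) = true := h
    rw [Bool.and_eq_true] at h
    rw [pow_succ, ← Nat.div_div_eq_div_mul] at hx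
    rcases Nat.mod_two_eq_zero_or_one (x / 2 ^ d) with h1 | h1
    · exact ih _ h.1 x (by omega)
    · exact ih _ h.2 x (by omega)

/-- the test for one code -/
def chk (x : ℕ) : Bool := taus.any (fun e => Nat.blt (act x e.2) x) ||
  (reps.any (fun e => Nat.beq e.1 x) || [3576, 7672, 7916, 16350].any fun y => Nat.beq y x)

theorem chk_all : allB chk 15 0 = true := by decide +kernel

theorem arch_k33e : IsArchimedeanGraph (gr 3576) := by
  intro φ hφ
  obtain ⟨T, L, h1, h2, h3, h4⟩ := scales hφ 6
  rcases le_or_gt (φ (T 3) (T 4) - φ (T 2) (T 4) - φ (T 1) (T 3) + φ (T 1) (T 2))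
    (φ (T 0) (T 2)) with h | h
  · obtain ⟨e⟩ := act_iso (c := 5514000) (m := 1066713786315052080) (by decide +kernel) 3814
    rw [show act 3814 1066713786315052080 = 3576 by decide +kernel] at e
    exact tol_iso e.toEmbedding (tol_s1 hφ h1 h2 h3 h4 h)
  · obtain ⟨e⟩ := act_iso (c := 275745) (m := 448689385946565810) (by decide +kernel) 25011
    rw [show act 25011 448689385946565810 = 3576 by decide +kernel] at e
    exact tol_iso e.toEmbedding (tol_s2 hφ h1 h2 h3 h4 h)

theorem arch_prism : IsArchimedeanGraph (gr 7916) := by
  intro φ hφ
  obtain ⟨T, L, h1, h2, h3, h4⟩ := scales hφ 6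
  rcases le_total (φ (T 0) (T 4)) (φ (T 1) (T 4)) with h | h
  · obtain ⟨e⟩ := act_iso (c := 4396320) (m := 684131860081675425) (by decide +kernel) 22905
    rw [show act 22905 684131860081675425 = 7916 by decide +kernel] at e
    exact tol_iso e.toEmbedding (tol_pa hφ h1 h2 h3 h4 h)
  · obtain ⟨e⟩ := act_iso (c := 5444640) (m := 990451384349493345) (by decide +kernel) 21945
    rw [show act 21945 990451384349493345 = 7916 by decide +kernel] at e
    exact tol_iso e.toEmbedding (tol_pb hφ h1 h2 h3 h4 h)

theorem good_code (x : ℕ) (hx : x < 2 ^ 15) : IsArchimedeanGraph (gr x) ∨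
    Nonempty (gr x ≃g gr 7672) ∨ Nonempty (gr x ≃g gr 16350) := by
  induction x using Nat.strong_induction_on with
  | _ x ih =>
    have h := allB_spec chk 15 0 chk_all x (Nat.div_eq_of_lt hx)
    simp only [chk, Bool.or_eq_true, List.any_eq_true, Nat.blt_eq, Nat.beq_eq] at h
    rcases h with ⟨e, he, h⟩ | ⟨e, he, h⟩ | ⟨y, hy, h⟩
    · obtain ⟨f⟩ := act_iso (taus_ok e he) x
      rcases ih _ h (h.trans hx) with h1 | ⟨⟨g⟩⟩ | ⟨⟨g⟩⟩
      · exact Or.inl (arch_iso f.symm.toEmbedding h1)
      · exact Or.inr (Or.inl ⟨f.symm.trans g⟩)
      · exact Or.inr (Or.inr ⟨f.symm.trans g⟩)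
    · exact Or.inl (h ▸ arch_of_val (reps_ok e he))
    · subst h
      simp only [List.mem_cons, List.not_mem_nil, or_false] at hy
      rcases hy with rfl | rfl | rfl | rfl
      · exact Or.inl arch_k33e
      · exact Or.inr (Or.inl ⟨SimpleGraph.Iso.refl⟩)
      · exact Or.inl arch_prism
      · exact Or.inr (Or.inr ⟨SimpleGraph.Iso.refl⟩)

/-- the code of `K_{3,3}` -/
def isoK33 : completeBipartiteGraph (Fin 3) (Fin 3) ≃g gr 7672 :=
  ⟨finSumFinEquiv (m := 3) (n := 3), by
    intro u v
    rw [completeBipartiteGraph_adj]
    revert u v
    decide +kernel⟩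

/-- the code of the octahedron -/
def isoOct : SimpleGraph.completeEquipartiteGraph 3 2 ≃g gr 16350 :=
  ⟨finProdFinEquiv (m := 3) (n := 2), by
    intro u v
    rw [SimpleGraph.completeEquipartiteGraph_adj]
    revert u v
    decide +kernel⟩

theorem good_of_card {V : Type} [Fintype V] (hV : Fintype.card V ≤ 6) (G : SimpleGraph V) :
    IsArchimedeanGraph G ∨ Nonempty (G ≃g gr 7672) ∨ Nonempty (G ≃g gr 16350) := by
  obtain ⟨f⟩ : Nonempty (V ↪ Fin 6) :=
    Function.Embedding.nonempty_of_card_le (by rwa [Fintype.card_fin])
  obtain ⟨x, hx, hG⟩ := exists_code (G.map f)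
  have key : ∀ y, (∀ u, ∃ v, (gr y).Adj u v) → Nonempty (gr x ≃g gr y) →
      Nonempty (G ≃g gr y) := by
    rintro y hy ⟨g⟩
    rw [hG] at g
    have hs : Function.Surjective f := by
      intro u
      obtain ⟨v, hv⟩ := hy (g u)
      have h1 : (G.map f).Adj u (g.symm v) := by
        rw [← g.map_adj_iff, RelIso.apply_symm_apply]
        exact hv
      obtain ⟨a, _, _, ha, _⟩ := (SimpleGraph.map_adj f G _ _).1 h1
      exact ⟨a, ha⟩
    have e : G ≃g G.map f := ⟨Equiv.ofBijective f ⟨f.injective, hs⟩, fun {a b} =>
      (SimpleGraph.Embedding.map f G).map_adj_iff⟩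
    exact ⟨e.trans g⟩
  rcases good_code x hx with h | h | h
  · rw [hG] at h
    exact Or.inl (arch_iso (SimpleGraph.Embedding.map f G) h)
  · exact Or.inr (Or.inl (key _ (by decide +kernel) h))
  · exact Or.inr (Or.inr (key _ (by decide +kernel) h))

end Pool.Agent.Lib.MP_3f93e8_co
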