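import Mathlib

/-!
Trees given by a parent map, and tree decompositions with unique tops.
-/

set_option autoImplicit false

namespace Pool.Agent.Lib.MP_3f93e8_co

open SimpleGraph

/-- the graph of a parent map with root `r` -/
def parGraph {ι : Type} (par : ι → ι) (r : ι) : SimpleGraph ι :=
  SimpleGraph.fromRel fun s t => s ≠ r ∧ par s = t

theorem conn_of_top {ι : Type} (par : ι → ι) (dep : ι → ℕ) (r : ι)
    (hdep : ∀ t, t ≠ r → dep (par t) < dep t) (S : Set ι) (hne : S.Nonempty)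
    (hu : ∀ s t, s ∈ S → t ∈ S → (s = r ∨ par s ∉ S) → (t = r ∨ par t ∉ S) → s = t) :
    ((parGraph par r).induce S).Connected := by
  have key : ∀ n, ∀ s : S, dep s < n → ∃ t : S, ((t : ι) = r ∨ par t ∉ S) ∧
      ((parGraph par r).induce S).Reachable s t := by
    intro n
    induction n with
    | zero => exact fun s hs => absurd hs (Nat.not_lt_zero _)
    | succ n ih =>
      intro s hs
      by_cases h : (s : ι) = r ∨ par s ∉ S
      · exact ⟨s, h, Reachable.refl _⟩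
      · have h1 : (s : ι) ≠ r := fun e => h (Or.inl e)
        have h2 : par s ∈ S := by
          by_contra e
          exact h (Or.inr e)
        have h3 := hdep s h1
        obtain ⟨t, ht, hr⟩ := ih ⟨par s, h2⟩ (by show dep (par s) < n; omega)
        refine ⟨t, ht, Reachable.trans (Adj.reachable ?_) hr⟩
        show (parGraph par r).Adj s (par s)
        rw [parGraph, fromRel_adj]
        refine ⟨fun e => ?_, Or.inl ⟨h1, rfl⟩⟩
        rw [← e] at h3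
        exact lt_irrefl _ h3
  have : Nonempty S := hne.to_subtype
  refine ⟨fun s s' => ?_⟩
  obtain ⟨t, ht, hr⟩ := key _ s (Nat.lt_succ_self _)
  obtain ⟨t', ht', hr'⟩ := key _ s' (Nat.lt_succ_self _)
  have e : t = t' := Subtype.ext (hu _ _ t.2 t'.2 ht ht')
  subst e
  exact hr.trans hr'.symm

theorem tree_of_parent {ι : Type} [Finite ι] (par : ι → ι) (dep : ι → ℕ) (r : ι)
    (hdep : ∀ t, t ≠ r → dep (par t) < dep t) : (parGraph par r).IsTree := by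
  have hc : (parGraph par r).Connected := by
    have h := conn_of_top par dep r hdep Set.univ ⟨r, trivial⟩ fun s t _ _ hs ht => by
      rw [hs.resolve_right fun e => e trivial, ht.resolve_right fun e => e trivial]
    exact (induceUnivIso _).connected_iff.1 h
  rw [isTree_iff_connected_and_card]
  refine ⟨hc, le_antisymm ?_ hc.card_vert_le_card_edgeSet_add_one⟩
  have h1 : (parGraph par r).edgeSet ⊆ (fun s => s(s, par s)) '' {r}ᶜ := by
    intro e he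
    induction e using Sym2.ind with
    | _ s t =>
      rw [mem_edgeSet, parGraph, fromRel_adj] at he
      rcases he.2 with ⟨a, rfl⟩ | ⟨a, rfl⟩
      · exact ⟨s, a, rfl⟩
      · exact ⟨t, a, Sym2.eq_swap⟩
  have h2 := (Set.ncard_le_ncard h1 (Set.toFinite _)).trans (Set.ncard_image_le (Set.toFinite _))
  have h3 := Set.ncard_add_ncard_compl ({r} : Set ι)
  rw [Set.ncard_singleton] at h3
  rw [Nat.card_coe_set_eq]
  omega

theorem decomp_of_parent {V ι : Type} [Finite V] [Finite ι] (G : SimpleGraph V) (par : ι → ι)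
    (dep : ι → ℕ) (r : ι) (hdep : ∀ t, t ≠ r → dep (par t) < dep t) (C : ι → Fin 4 → Set V)
    (hC : ∀ t k, G.IsClique (C t k))
    (hE : ∀ u v, G.Adj u v → ∃ t, (∃ k, u ∈ C t k) ∧ ∃ k, v ∈ C t k)
    (hT : ∀ v s t, (∃ k, v ∈ C s k) → (∃ k, v ∈ C t k) → (s = r ∨ ¬ ∃ k, v ∈ C (par s) k) →
      (t = r ∨ ¬ ∃ k, v ∈ C (par t) k) → s = t) :
    ∃ (κ : Type) (_ : Finite κ) (T : SimpleGraph κ) (D : κ → Fin 4 → Set V), T.IsTree ∧
      (∀ t k, G.IsClique (D t k)) ∧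
      (∀ u v, G.Adj u v → ∃ t, (∃ k, u ∈ D t k) ∧ ∃ k, v ∈ D t k) ∧
      ∀ v, (T.induce {t | ∃ k, v ∈ D t k}).Connected := by
  let par' : ι ⊕ V → ι ⊕ V := Sum.elim (fun t => Sum.inl (par t)) fun _ => Sum.inl r
  let dep' : ι ⊕ V → ℕ := Sum.elim dep fun _ => dep r + 1
  let D : ι ⊕ V → Fin 4 → Set V :=
    Sum.elim C fun w _ => {v | v = w ∧ ¬ ∃ t k, v ∈ C t k}
  have hdep' : ∀ t, t ≠ Sum.inl r → dep' (par' t) < dep' t := by
    rintro (t | w) ht
    · exact hdep t fun e => ht (by rw [e])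
    · exact Nat.lt_succ_self _
  refine ⟨ι ⊕ V, inferInstance, parGraph par' (Sum.inl r), D, tree_of_parent par' dep' _ hdep',
    ?_, fun u v huv => ?_, fun v => conn_of_top par' dep' _ hdep' _ ?_ ?_⟩
  · rintro (t | w) k
    · exact hC t k
    · rintro x ⟨rfl, -⟩ y ⟨rfl, -⟩ hxy
      exact absurd rfl hxy
  · obtain ⟨t, ht⟩ := hE u v huv
    exact ⟨Sum.inl t, ht⟩
  · by_cases h : ∃ t k, v ∈ C t k
    · obtain ⟨t, ht⟩ := h
      exact ⟨Sum.inl t, ht⟩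
    · exact ⟨Sum.inr v, 0, rfl, h⟩
  · rintro (s | w) (t | w') hs ht h1 h2
    · rw [hT v s t hs ht (h1.imp Sum.inl_injective.eq_iff.1 id)
        (h2.imp Sum.inl_injective.eq_iff.1 id)]
    · obtain ⟨_, -, h⟩ := ht
      exact absurd ⟨s, hs⟩ h
    · obtain ⟨_, -, h⟩ := hs
      exact absurd ⟨t, ht⟩ h
    · obtain ⟨_, rfl, -⟩ := hs
      obtain ⟨_, rfl, -⟩ := ht
      rfl

/-- the interval `[α, β)` contains the last `m`-high gap before `i` -/
def cA (hi : ℕ → ℕ → Prop) (α β m i : ℕ) : Prop :=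
  (∃ j, j < i ∧ hi m j ∧ α ≤ j) ∧ ∀ k, β ≤ k → k < i → ¬ hi m k

/-- the interval `[α, β)` contains the first `m`-high gap from `i` on -/
def cB (hi : ℕ → ℕ → Prop) (α β m i : ℕ) : Prop :=
  (∃ j, i ≤ j ∧ hi m j ∧ j < β) ∧ ∀ k, i ≤ k → k < α → ¬ hi m k

/-- membership in the bag of the node `(m, i)` -/
def inBag (hi W : ℕ → ℕ → Prop) (α β ρ m i : ℕ) : Prop :=
  W m i ∨ (ρ < m ∧ cA hi α β m i) ∨ (ρ < m ∧ cB hi α β m i) ∨ (ρ ≤ m ∧ cB hi α β (m + 1) i)

theorem top_shape {hi W : ℕ → ℕ → Prop} {α β ρ : ℕ} (hm : ∀ m j, hi (m + 1) j → hi m j)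
    (hW : ∀ m i, W m i → ρ ≤ m ∧ α ≤ i ∧ ∃ j, i ≤ j ∧ hi m j ∧ j < β)
    (hW' : ∀ m i, W m (i + 1) → α ≤ i → W m i) {m i : ℕ} (hS : inBag hi W α β ρ m i)
    (hl : ∀ k, i = k + 1 → ¬ hi (m + 1) k → ¬ inBag hi W α β ρ m k)
    (hu : (∀ k, i = k + 1 → hi (m + 1) k) →
      (∀ j, j < β → ¬ hi (m + 1) j) ∨ ¬ inBag hi W α β ρ (m + 1) i) :
    (∃ j, α ≤ j ∧ j < β ∧ hi m j) ∧ (∀ j, α ≤ j → j < β → ¬ hi (m + 1) j) ∧
      ((ρ = m ∧ i = α) ∨ (ρ < m ∧ (∀ k, i ≤ k → k < α → ¬ hi m k) ∧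
        ∀ k, i = k + 1 → hi m k ∧ k < α)) := by
  have cov : ∀ m i, cB hi α β m i → ∃ j, α ≤ j ∧ j < β ∧ hi m j := by
    rintro m i ⟨⟨j, a1, a2, a3⟩, a4⟩
    refine ⟨j, ?_, a3, a2⟩
    by_contra hc
    exact a4 j a1 (by omega) a2
  have F0 : ρ ≤ m := by
    rcases hS with h | h | h | h
    · exact (hW _ _ h).1
    · exact h.1.le
    · exact h.1.le
    · exact h.1
  have F1 : ∃ j, α ≤ j ∧ j < β ∧ hi m j := by
    rcases hS with h | ⟨-, ⟨j, a1, a2, a3⟩, a4⟩ | h | h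
    · obtain ⟨-, a1, j, a2, a3, a4⟩ := hW _ _ h
      exact ⟨j, by omega, a4, a3⟩
    · refine ⟨j, a3, ?_, a2⟩
      by_contra hc
      exact a4 j (by omega) a1 a2
    · exact cov _ _ h.2
    · obtain ⟨j, a1, a2, a3⟩ := cov _ _ h.2
      exact ⟨j, a1, a2, hm _ _ a3⟩
  have F2 : ∀ k, i ≤ k → k < α → ¬ hi (m + 1) k := by
    intro k b1 b2 b3
    rcases hS with h | ⟨-, ⟨j, a1, a2, a3⟩, a4⟩ | h | h
    · have := (hW _ _ h).2.1
      omega
    · omega
    · exact h.2.2 k b1 b2 (hm _ _ b3)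
    · exact h.2.2 k b1 b2 b3
  have F3 : ∀ k, β ≤ k → k < i → ¬ hi (m + 1) k := by
    intro k b1 b2 b3
    rcases hS with h | h | ⟨-, ⟨j, a1, a2, a3⟩, a4⟩ | ⟨-, ⟨j, a1, a2, a3⟩, a4⟩
    · obtain ⟨-, -, j, a2, a3, a4⟩ := hW _ _ h
      omega
    · exact h.2.2 k b1 b2 (hm _ _ b3)
    · omega
    · omega
  have stepB : ∀ m k, cB hi α β m (k + 1) → ¬ hi m k → cB hi α β m k := by
    rintro m k ⟨⟨j, a1, a2, a3⟩, a4⟩ hk
    refine ⟨⟨j, by omega, a2, a3⟩, fun k' b1 b2 => ?_⟩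
    rcases Nat.eq_or_lt_of_le b1 with rfl | b3
    · exact hk
    · exact a4 k' b3 b2
  have G : ∀ j, α ≤ j → j < β → ¬ hi (m + 1) j := by
    intro j c1 c2 c3
    by_cases hleft : ∀ k, i = k + 1 → hi (m + 1) k
    · rcases hu hleft with h | h
      · exact h j c2 c3
      · rcases Nat.lt_or_ge j i with c4 | c4
        · exact h (Or.inr (Or.inl ⟨by omega, ⟨j, c4, c3, c1⟩, F3⟩))
        · exact h (Or.inr (Or.inr (Or.inl ⟨by omega, ⟨j, c4, c3, c2⟩, F2⟩)))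
    · push Not at hleft
      obtain ⟨k, rfl, hk⟩ := hleft
      refine hl k rfl hk ?_
      rcases Nat.lt_or_ge j (k + 1) with c4 | c4
      · have c5 : j ≠ k := fun e => hk (e ▸ c3)
        rcases hS with h | h | ⟨a0, ⟨j', a1, a2, a3⟩, a4⟩ | h
        · exact Or.inl (hW' _ _ h (by omega))
        · exact Or.inr (Or.inl ⟨h.1, ⟨j, by omega, hm _ _ c3, c1⟩,
            fun k' b1 b2 => h.2.2 k' b1 (by omega)⟩)
        · exact Or.inr (Or.inl ⟨a0, ⟨j, by omega, hm _ _ c3, c1⟩, fun k' b1 b2 => by omega⟩)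
        · exact Or.inr (Or.inr (Or.inr ⟨F0, stepB _ _ h.2 hk⟩))
      · exact Or.inr (Or.inr (Or.inr ⟨F0, stepB _ _ ⟨⟨j, c4, c3, c2⟩, F2⟩ hk⟩))
  refine ⟨F1, G, ?_⟩
  have nR : ¬ cB hi α β (m + 1) i := fun h => by
    obtain ⟨j, a1, a2, a3⟩ := cov _ _ h
    exact G j a1 a2 a3
  rcases Nat.eq_or_lt_of_le F0 with e | e
  · refine Or.inl ⟨e, ?_⟩
    rcases hS with h | h | h | h
    · obtain ⟨-, a1, j, a2, a3, a4⟩ := hW _ _ h
      by_contra hc
      obtain ⟨k, rfl⟩ : ∃ k, i = k + 1 := ⟨i - 1, by omega⟩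
      exact hl k rfl (G k (by omega) (by omega)) (Or.inl (hW' _ _ h (by omega)))
    · omega
    · omega
    · exact absurd h.2 nR
  · have hAB : cA hi α β m i ∨ cB hi α β m i := by
      rcases hS with h | h | h | h
      · obtain ⟨-, a1, a2⟩ := hW _ _ h
        exact Or.inr ⟨a2, fun k b1 b2 => by omega⟩
      · exact Or.inl h.2
      · exact Or.inr h.2
      · exact absurd h.2 nR
    have last : ∀ k, i = k + 1 → hi m k ∧ k < α := by
      rintro k rfl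
      have b1 : hi m k := by
        by_contra hc
        refine hl k rfl (fun h => hc (hm _ _ h)) ?_
        rcases hAB with ⟨⟨j, a1, a2, a3⟩, a4⟩ | h
        · have c5 : j ≠ k := fun e => hc (e ▸ a2)
          exact Or.inr (Or.inl ⟨e, ⟨j, by omega, a2, a3⟩, fun k' b1 b2 => a4 k' b1 (by omega)⟩)
        · exact Or.inr (Or.inr (Or.inl ⟨e, stepB _ _ h hc⟩))
      refine ⟨b1, ?_⟩
      by_contra hc
      have b2 : k < β := by
        rcases hAB with ⟨-, a4⟩ | ⟨⟨j, a1, a2, a3⟩, -⟩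
        · by_contra hd
          exact a4 k (by omega) (by omega) b1
        · omega
      exact hl k rfl (G k (by omega) b2)
        (Or.inr (Or.inr (Or.inl ⟨e, ⟨k, le_rfl, b1, b2⟩, fun k' c1 c2 => by omega⟩)))
    refine Or.inr ⟨e, ?_, last⟩
    rcases hAB with ⟨⟨j, a1, a2, a3⟩, -⟩ | h
    · intro k c1 c2
      omega
    · exact h.2

theorem shape_unique {hi : ℕ → ℕ → Prop} {α β ρ : ℕ} (hm : ∀ m j, hi (m + 1) j → hi m j)
    {m i m' i' : ℕ}
    (h : (∃ j, α ≤ j ∧ j < β ∧ hi m j) ∧ (∀ j, α ≤ j → j < β → ¬ hi (m + 1) j) ∧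
      ((ρ = m ∧ i = α) ∨ (ρ < m ∧ (∀ k, i ≤ k → k < α → ¬ hi m k) ∧
        ∀ k, i = k + 1 → hi m k ∧ k < α)))
    (h' : (∃ j, α ≤ j ∧ j < β ∧ hi m' j) ∧ (∀ j, α ≤ j → j < β → ¬ hi (m' + 1) j) ∧
      ((ρ = m' ∧ i' = α) ∨ (ρ < m' ∧ (∀ k, i' ≤ k → k < α → ¬ hi m' k) ∧
        ∀ k, i' = k + 1 → hi m' k ∧ k < α))) : m = m' ∧ i = i' := by
  have mono : ∀ j a b, a ≤ b → hi b j → hi a j := by
    intro j a b hab
    induction hab with
    | refl => exact id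
    | step _ ih => exact fun x => ih (hm _ _ x)
  obtain ⟨⟨j, a1, a2, a3⟩, a4, a5⟩ := h
  obtain ⟨⟨j', b1, b2, b3⟩, b4, b5⟩ := h'
  have e : m = m' := by
    rcases lt_trichotomy m m' with c | c | c
    · exact absurd (mono _ _ _ c b3) (a4 j' b1 b2)
    · exact c
    · exact absurd (mono _ _ _ c a3) (b4 j a1 a2)
  subst e
  refine ⟨rfl, ?_⟩
  rcases a5 with a5 | ⟨a5, a6, a7⟩ <;> rcases b5 with b5 | ⟨b5, b6, b7⟩
  · omega
  · omega
  · omega
  · rcases lt_trichotomy i i' with c | c | c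
    · have := b7 (i' - 1) (by omega)
      exact absurd this.1 (a6 _ (by omega) this.2)
    · exact c
    · have := a7 (i - 1) (by omega)
      exact absurd this.1 (b6 _ (by omega) this.2)

end Pool.Agent.Lib.MP_3f93e8_co
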