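import Mathlib
import Pool.Agent.Lib.MP_3f93e8_co.Basic
import Pool.Agent.Lib.MP_3f93e8_co.TreeA

/-!
Tree decompositions of tolerance graphs for a lacunary step function of the maximum.
-/

set_option autoImplicit false

namespace Pool.Agent.Lib.MP_3f93e8_co

open Filter

theorem decomp_of_levels {V : Type} [Finite V] (G : SimpleGraph V) (M N : ℕ)
    (hi : ℕ → ℕ → Prop) (W : V → ℕ → ℕ → Prop) (α β ρ : V → ℕ)
    (hm : ∀ m j, hi (m + 1) j → hi m j) (htop : ∀ j, j < N → ¬ hi (M + 1) j)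
    (hβ : ∀ v, β v ≤ N)
    (hW : ∀ v m i, W v m i → ρ v ≤ m ∧ α v ≤ i ∧ ∃ j, i ≤ j ∧ hi m j ∧ j < β v)
    (hW' : ∀ v m i, W v m (i + 1) → α v ≤ i → W v m i)
    (cW : ∀ u v m i, u ≠ v → W u m i → W v m i → G.Adj u v)
    (cH : ∀ u v m j, u ≠ v → ρ u < m → ρ v < m → hi m j → α u ≤ j → j < β u → α v ≤ j →
      j < β v → G.Adj u v)
    (hE : ∀ u v, G.Adj u v → ∃ m i, m ≤ M ∧ i ≤ N ∧ W u m i ∧ W v m i) :
    ∃ (κ : Type) (_ : Finite κ) (T : SimpleGraph κ) (D : κ → Fin 4 → Set V), T.IsTree ∧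
      (∀ t k, G.IsClique (D t k)) ∧
      (∀ u v, G.Adj u v → ∃ t, (∃ k, u ∈ D t k) ∧ ∃ k, v ∈ D t k) ∧
      ∀ v, (T.induce {t | ∃ k, v ∈ D t k}).Connected := by
  classical
  let par : Fin (M + 1) × Fin (N + 1) → Fin (M + 1) × Fin (N + 1) := fun p =>
    if ∀ k, (p.2 : ℕ) = k + 1 → hi (p.1 + 1) k then (⟨min (p.1 + 1) M, by omega⟩, p.2)
    else (p.1, ⟨p.2 - 1, by omega⟩)
  let C : Fin (M + 1) × Fin (N + 1) → Fin 4 → Set V := fun p =>
    ![{v | W v p.1 p.2}, {v | ρ v < p.1 ∧ cA hi (α v) (β v) p.1 p.2},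
      {v | ρ v < p.1 ∧ cB hi (α v) (β v) p.1 p.2},
      {v | ρ v ≤ p.1 ∧ cB hi (α v) (β v) (p.1 + 1) p.2}]
  have hmem : ∀ v p, (∃ k, v ∈ C p k) ↔ inBag hi (W v) (α v) (β v) (ρ v) p.1 p.2 := by
    intro v p
    simp only [C, Fin.exists_fin_succ, inBag]
    simp
  have hroot : ∀ p : Fin (M + 1) × Fin (N + 1), p ≠ (Fin.last M, 0) →
      (∀ k, (p.2 : ℕ) = k + 1 → hi (p.1 + 1) k) → (p.1 : ℕ) < M := by
    rintro ⟨m, i⟩ hp h
    by_contra hc
    have e1 : (m : ℕ) = M := by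
      have := m.2
      simp only at hc
      omega
    have e2 : (i : ℕ) ≠ 0 := fun e => hp (Prod.ext (Fin.ext e1) (Fin.ext e))
    have e3 := h (i - 1) (by simp only; omega)
    simp only [e1] at e3
    have := i.2
    exact htop _ (by omega) e3
  have cBc : ∀ u v m i, u ≠ v → ρ u < m → ρ v < m → cB hi (α u) (β u) m i →
      cB hi (α v) (β v) m i → G.Adj u v := by
    rintro u v m i huv h1 h2 ⟨⟨j, a1, a2, a3⟩, a4⟩ ⟨⟨j', b1, b2, b3⟩, b4⟩
    rcases le_total j j' with c | c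
    · exact cH u v m j huv h1 h2 a2 (not_lt.1 fun x => a4 j a1 x a2) a3
        (not_lt.1 fun x => b4 j a1 x a2) (by omega)
    · exact cH u v m j' huv h1 h2 b2 (not_lt.1 fun x => a4 j' b1 x b2) (by omega)
        (not_lt.1 fun x => b4 j' b1 x b2) b3
  have shape : ∀ v (p : Fin (M + 1) × Fin (N + 1)), (∃ k, v ∈ C p k) →
      (p = (Fin.last M, 0) ∨ ¬ ∃ k, v ∈ C (par p) k) → _ := fun v p h1 h2 =>
    top_shape (m := p.1) (i := p.2) hm (hW v) (hW' v) ((hmem v p).1 h1)
      (fun k e hk hb => by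
        rcases h2 with rfl | h2
        · simp at e
        · refine h2 ((hmem v _).2 ?_)
          have e1 : ¬ ∀ k, (p.2 : ℕ) = k + 1 → hi (p.1 + 1) k := fun x => hk (x k e)
          simp only [par, if_neg e1, e, Nat.add_sub_cancel]
          exact hb)
      (fun hall => by
        by_cases e : p = (Fin.last M, 0)
        · refine Or.inl fun j hj => ?_
          rw [e]
          exact htop j (lt_of_lt_of_le hj (hβ v))
        · refine Or.inr fun hb => h2.resolve_left e ((hmem v _).2 ?_)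
          have e1 := hroot p e hall
          simp only [par, if_pos hall, min_eq_left (Nat.succ_le_of_lt e1)]
          exact hb)
  refine decomp_of_parent G par (fun p => (M - p.1) + p.2) (Fin.last M, 0) ?_ C ?_ ?_ ?_
  · intro p hp
    by_cases hall : ∀ k, (p.2 : ℕ) = k + 1 → hi (p.1 + 1) k
    · have e1 := hroot p hp hall
      simp only [par, if_pos hall]
      omega
    · simp only [par, if_neg hall]
      push Not at hall
      obtain ⟨k, e, -⟩ := hall
      omega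
  · intro p k
    fin_cases k
    · exact fun u hu v hv huv => cW u v _ _ huv hu hv
    · rintro u ⟨h1, ⟨j, a1, a2, a3⟩, a4⟩ v ⟨h2, ⟨j', b1, b2, b3⟩, b4⟩ huv
      rcases le_total j j' with c | c
      · exact cH u v _ j' huv h1 h2 b2 (by omega) (not_le.1 fun x => a4 j' x b1 b2) b3
          (not_le.1 fun x => b4 j' x b1 b2)
      · exact cH u v _ j huv h1 h2 a2 a3 (not_le.1 fun x => a4 j x a1 a2) (by omega)
          (not_le.1 fun x => b4 j x a1 a2)
    · exact fun u hu v hv huv => cBc u v _ _ huv hu.1 hv.1 hu.2 hv.2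
    · exact fun u hu v hv huv => cBc u v _ _ huv (Nat.lt_succ_of_le hu.1)
        (Nat.lt_succ_of_le hv.1) hu.2 hv.2
  · intro u v huv
    obtain ⟨m, i, h1, h2, h3, h4⟩ := hE u v huv
    exact ⟨(⟨m, by omega⟩, ⟨i, by omega⟩), ⟨0, h3⟩, 0, h4⟩
  · intro v s t hs ht h1 h2
    have := shape_unique hm (shape v s hs h1) (shape v t ht h2)
    exact Prod.ext (Fin.ext this.1) (Fin.ext this.2)

theorem exists_enum (s : Finset ℝ) :
    ∃ e : ℕ → ℝ, Monotone e ∧ ∀ x ∈ s, ∃ i, i ≤ s.card ∧ e i = x := by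
  induction s using Finset.induction_on_max with
  | empty => exact ⟨fun _ => 0, monotone_const, fun x hx => absurd hx (Finset.notMem_empty x)⟩
  | insert a s ha ih =>
    obtain ⟨e, h1, h2⟩ := ih
    have hc := Finset.card_insert_of_notMem fun h : a ∈ s => lt_irrefl _ (ha a h)
    refine ⟨fun i => if i ≤ s.card then min (e i) a else a, fun i j hij => ?_, fun x hx => ?_⟩
    · by_cases c1 : j ≤ s.card
      · simp only [if_pos c1, if_pos (hij.trans c1)]
        exact min_le_min_right _ (h1 hij)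
      · by_cases c2 : i ≤ s.card
        · simp only [if_neg c1, if_pos c2]
          exact min_le_right _ _
        · simp only [if_neg c1, if_neg c2, le_rfl]
    · rcases Finset.mem_insert.1 hx with rfl | hx
      · exact ⟨s.card + 1, hc.ge, if_neg (Nat.not_succ_le_self _)⟩
      · obtain ⟨i, a1, a2⟩ := h2 x hx
        refine ⟨i, by omega, ?_⟩
        simp only [if_pos a1, a2]
        exact min_eq_left (ha x hx).le

theorem arch_step {K : ℝ} (hK : 1 < K) :
    IsArchimedeanFn fun x y => K ^ (⌈max x y⌉₊ + 1) := by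
  have h : Tendsto (fun x : ℝ => K ^ (⌈x⌉₊ + 1)) atTop atTop :=
    (tendsto_pow_atTop_atTop_of_one_lt hK).comp
      ((tendsto_add_atTop_nat 1).comp tendsto_nat_ceil_atTop)
  refine ⟨fun x y _ _ => by simp only [max_comm], fun x y _ _ => by positivity, fun c hc => ?_⟩
  exact ⟨h.comp (isArchimedeanFn_max.2.2 c hc).1, h.comp (isArchimedeanFn_max.2.2 c hc).2⟩

theorem decomp_of_step {V : Type} [Fintype V] (G : SimpleGraph V) {K : ℝ} (hK : 1 < K)
    (hK' : 2 * (Fintype.card V : ℝ) < K)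
    (h : IsToleranceGraph (fun x y => K ^ (⌈max x y⌉₊ + 1)) G) :
    ∃ (κ : Type) (_ : Finite κ) (T : SimpleGraph κ) (D : κ → Fin 4 → Set V), T.IsTree ∧
      (∀ t k, G.IsClique (D t k)) ∧
      (∀ u v, G.Adj u v → ∃ t, (∃ k, u ∈ D t k) ∧ ∃ k, v ∈ D t k) ∧
      ∀ v, (T.induce {t | ∃ k, v ∈ D t k}).Connected := by
  classical
  obtain ⟨a, b, t, -, -, hadj⟩ := h
  obtain ⟨e, he, hs⟩ := exists_enum (Finset.univ.image a ∪ Finset.univ.image b)
  have hcard : (Finset.univ.image a ∪ Finset.univ.image b).card ≤ 2 * Fintype.card V := by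
    have h1 := Finset.card_union_le (Finset.univ.image a) (Finset.univ.image b)
    have h2 := Finset.card_image_le (s := Finset.univ) (f := a)
    have h3 := Finset.card_image_le (s := Finset.univ) (f := b)
    rw [Finset.card_univ] at h2 h3
    omega
  choose α hα1 hα2 using fun v => hs (a v)
    (Finset.mem_union_left _ (Finset.mem_image_of_mem _ (Finset.mem_univ v)))
  choose β hβ1 hβ2 using fun v => hs (b v)
    (Finset.mem_union_right _ (Finset.mem_image_of_mem _ (Finset.mem_univ v)))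
  have K0 : 0 < K := by linarith
  have hiff : ∀ u v, u ≠ v → (G.Adj u v ↔
      K ^ (max ⌈t u⌉₊ ⌈t v⌉₊ + 1) ≤ e (β u) - e (α u) ∧
      K ^ (max ⌈t u⌉₊ ⌈t v⌉₊ + 1) ≤ e (β u) - e (α v) ∧
      K ^ (max ⌈t u⌉₊ ⌈t v⌉₊ + 1) ≤ e (β v) - e (α u) ∧
      K ^ (max ⌈t u⌉₊ ⌈t v⌉₊ + 1) ≤ e (β v) - e (α v)) := by
    intro u v huv
    rw [hadj u v huv, le_len_iff (by positivity), hα2, hα2, hβ2, hβ2, ← Nat.ceil_mono.map_max]
  have adj : ∀ u v m (x y : ℝ), u ≠ v → ⌈t u⌉₊ < m → ⌈t v⌉₊ < m → e (α u) ≤ x → e (α v) ≤ x →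
      y ≤ e (β u) → y ≤ e (β v) → K ^ m ≤ y - x → G.Adj u v := by
    intro u v m x y huv h1 h2 h3 h4 h5 h6 h7
    have h8 : K ^ (max ⌈t u⌉₊ ⌈t v⌉₊ + 1) ≤ K ^ m := pow_le_pow_right₀ hK.le (by omega)
    exact (hiff u v huv).2 ⟨by linarith, by linarith, by linarith, by linarith⟩
  obtain ⟨M, hM1, hM2⟩ : ∃ M : ℕ, e (2 * Fintype.card V) - e 0 < K ^ (M + 1) ∧
      ∀ v, ⌈t v⌉₊ ≤ M := by
    obtain ⟨n, hn⟩ := pow_unbounded_of_one_lt (e (2 * Fintype.card V) - e 0) hK
    refine ⟨n + Finset.univ.sup fun v => ⌈t v⌉₊, hn.trans_le (pow_le_pow_right₀ hK.le (by omega)),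
      fun v => le_add_left (Finset.le_sup (f := fun v => ⌈t v⌉₊) (Finset.mem_univ v))⟩
  refine decomp_of_levels G M (2 * Fintype.card V) (fun m j => K ^ m ≤ e (j + 1) - e j)
    (fun v m i => ⌈t v⌉₊ ≤ m ∧ α v ≤ i ∧ e i + K ^ (m + 1) ≤ e (β v)) α β (fun v => ⌈t v⌉₊)
    (fun m j h => (pow_le_pow_right₀ hK.le (Nat.le_succ m)).trans h) (fun j hj h => ?_)
    (fun v => (hβ1 v).trans hcard) ?_ ?_ ?_ ?_ ?_
  · have h1 := he (Nat.succ_le_of_lt hj)
    have h2 := he (Nat.zero_le j)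
    linarith
  · rintro v m i ⟨h1, h2, h3⟩
    refine ⟨h1, h2, ?_⟩
    by_contra hc
    push Not at hc
    have p1 : 0 < K ^ m := by positivity
    have key : ∀ d : ℕ, i + d ≤ β v → e (i + d) - e i ≤ d * K ^ m := by
      intro d
      induction d with
      | zero => simp
      | succ d ih =>
        intro hd
        have a1 := ih (by omega)
        have a2 : e (i + d + 1) - e (i + d) < K ^ m :=
          not_le.1 fun x => absurd (hc (i + d) (by omega) x) (by omega)
        rw [← add_assoc]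
        push_cast
        linarith
    rcases le_total i (β v) with c | c
    · obtain ⟨d, hd⟩ := Nat.exists_eq_add_of_le c
      have a1 := key d hd.ge
      have a2 : (d : ℝ) ≤ 2 * (Fintype.card V : ℝ) := by
        have := (hβ1 v).trans hcard
        exact_mod_cast (by omega : d ≤ 2 * Fintype.card V)
      rw [← hd] at a1
      rw [pow_succ] at h3
      nlinarith
    · have a1 := he c
      have a2 : 0 < K ^ (m + 1) := by positivity
      linarith
  · rintro v m i ⟨h1, -, h3⟩ h2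
    have := he (Nat.le_succ i)
    exact ⟨h1, h2, by linarith⟩
  · rintro u v m i huv ⟨a1, a2, a3⟩ ⟨b1, b2, b3⟩
    exact adj u v (m + 1) (e i) (e i + K ^ (m + 1)) huv (by omega) (by omega) (he a2) (he b2)
      a3 b3 (by linarith)
  · intro u v m j huv a1 a2 a3 a4 a5 a6 a7
    exact adj u v m (e j) (e (j + 1)) huv a1 a2 (he a4) (he a6) (he a5) (he a7) a3
  · intro u v huv
    obtain ⟨a1, a2, a3, a4⟩ := (hiff u v huv.ne).1 huv
    have b1 := (hα1 u).trans hcard
    have b2 := (hα1 v).trans hcard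
    refine ⟨max ⌈t u⌉₊ ⌈t v⌉₊, max (α u) (α v), max_le (hM2 u) (hM2 v), max_le b1 b2,
      ⟨le_max_left _ _, le_max_left _ _, ?_⟩, le_max_right _ _, le_max_right _ _, ?_⟩ <;>
    rcases max_choice (α u) (α v) with c | c <;> rw [c] <;> linarith

end Pool.Agent.Lib.MP_3f93e8_co
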